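import Mathlib

set_option autoImplicit false

namespace Pool.Agent.N824.NullMeq

open Finset

/-! ### Part 1: the slowly oscillating function -/

/-- The set of powers of eight. -/
def pw8 : Set ℝ := Set.range (fun i : ℕ => (8 : ℝ) ^ i)

lemma pw8_nonempty : pw8.Nonempty := ⟨(8 : ℝ) ^ 0, 0, rfl⟩

/-- The slowly oscillating function. -/
noncomputable def Th (r : ℝ) : ℝ := min 1 (4 * (Metric.infDist r pw8 / (1 + r)))

lemma Th_nonneg {r : ℝ} (hr : 0 ≤ r) : 0 ≤ Th r := by
  unfold Th
  have : 0 ≤ Metric.infDist r pw8 := Metric.infDist_nonneg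
  refine le_min zero_le_one (by positivity)

lemma Th_le_one (r : ℝ) : Th r ≤ 1 := min_le_left _ _

lemma infDist_pw8_le {r : ℝ} (hr : 0 ≤ r) : Metric.infDist r pw8 ≤ 1 + r := by
  have h1 : Metric.infDist r pw8 ≤ dist r ((8:ℝ)^0) := Metric.infDist_le_dist_of_mem ⟨0, rfl⟩
  rw [Real.dist_eq, pow_zero] at h1
  refine h1.trans ?_
  rw [abs_le]; constructor <;> linarith

lemma abs_min_one_sub (a b : ℝ) : |min 1 a - min 1 b| ≤ |a - b| := by
  rcases le_total 1 a with ha | ha <;> rcases le_total 1 b with hb | hb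
  · simp [min_eq_left ha, min_eq_left hb]
  · rw [min_eq_left ha, min_eq_right hb, abs_of_nonneg (by linarith), abs_of_nonneg (by linarith)]
    linarith
  · rw [min_eq_right ha, min_eq_left hb, abs_of_nonpos (by linarith), abs_of_nonpos (by linarith)]
    linarith
  · simp [min_eq_right ha, min_eq_right hb]

lemma Th_lip {r s : ℝ} (hr : 0 ≤ r) (hs : 0 ≤ s) :
    |Th r - Th s| ≤ 8 * (|r - s| / (1 + r)) := by
  unfold Th
  refine (abs_min_one_sub _ _).trans ?_
  have hD : |Metric.infDist r pw8 - Metric.infDist s pw8| ≤ |r - s| := by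
    have := (Metric.lipschitz_infDist_pt pw8).dist_le_mul r s
    simpa [Real.dist_eq] using this
  have hDs : Metric.infDist s pw8 ≤ 1 + s := infDist_pw8_le hs
  have hDs0 : 0 ≤ Metric.infDist s pw8 := Metric.infDist_nonneg
  have e : 4 * (Metric.infDist r pw8 / (1 + r)) - 4 * (Metric.infDist s pw8 / (1 + s))
      = 4 * ((Metric.infDist r pw8 - Metric.infDist s pw8) / (1 + r))
        + 4 * ((Metric.infDist s pw8 / (1 + s)) * ((s - r) / (1 + r))) := by
    field_simp
    ring
  rw [e]
  refine (abs_add_le _ _).trans ?_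
  have h1 : |4 * ((Metric.infDist r pw8 - Metric.infDist s pw8) / (1 + r))|
      ≤ 4 * (|r - s| / (1 + r)) := by
    rw [abs_mul, abs_div, abs_of_pos (show (0:ℝ) < 4 by norm_num),
      abs_of_pos (show (0:ℝ) < 1 + r by linarith)]
    gcongr
  have h2 : |4 * ((Metric.infDist s pw8 / (1 + s)) * ((s - r) / (1 + r)))|
      ≤ 4 * (|r - s| / (1 + r)) := by
    rw [abs_mul, abs_mul, abs_div, abs_div, abs_of_pos (show (0:ℝ) < 4 by norm_num),
      abs_of_pos (show (0:ℝ) < 1 + r by linarith), abs_of_pos (show (0:ℝ) < 1 + s by linarith),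
      abs_of_nonneg hDs0, abs_sub_comm s r]
    have h3 : Metric.infDist s pw8 / (1 + s) ≤ 1 := by
      rw [div_le_one (by linarith)]; exact hDs
    have h4 : 0 ≤ |r - s| / (1 + r) := by positivity
    nlinarith
  linarith

lemma Th_pow (i : ℕ) : Th ((8:ℝ)^i) = 0 := by
  unfold Th
  rw [Metric.infDist_zero_of_mem (show (8:ℝ)^i ∈ pw8 from ⟨i, rfl⟩)]
  simp

lemma infDist_ge {i : ℕ} {r : ℝ} (h1 : 2 * 8 ^ i ≤ r) (h2 : r ≤ 5 * 8 ^ i) :
    min (r - 8 ^ i) (3 * 8 ^ i) ≤ Metric.infDist r pw8 := by
  rw [Metric.le_infDist pw8_nonempty]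
  rintro y ⟨j, rfl⟩
  rw [Real.dist_eq]
  have hp : (0:ℝ) < 8 ^ i := by positivity
  rcases Nat.lt_or_ge i j with hij | hij
  · have : (8:ℝ) ^ (i+1) ≤ 8 ^ j := pow_le_pow_right₀ (by norm_num) hij
    rw [pow_succ] at this
    refine (min_le_right _ _).trans ?_
    simp only
    rw [abs_of_nonpos (by linarith)]
    linarith
  · have : (8:ℝ) ^ j ≤ 8 ^ i := pow_le_pow_right₀ (by norm_num) hij
    refine (min_le_left _ _).trans ?_
    simp only
    rw [abs_of_nonneg (by linarith)]
    linarith

lemma Th_plateau {i : ℕ} {r : ℝ} (h1 : 2 * 8 ^ i ≤ r) (h2 : r ≤ 5 * 8 ^ i) : Th r = 1 := by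
  have hp : (1:ℝ) ≤ 8 ^ i := one_le_pow₀ (by norm_num)
  have h := infDist_ge h1 h2
  unfold Th
  apply min_eq_left
  rw [← mul_div_assoc, le_div_iff₀ (by linarith)]
  rcases le_total (r - 8 ^ i) (3 * 8 ^ i) with hh | hh
  · rw [min_eq_left hh] at h; linarith
  · rw [min_eq_right hh] at h; linarith

/-! ### Part 2: greedy approximation in a real inner product space -/

section greedy

variable {H : Type*} [NormedAddCommGroup H] [InnerProductSpace ℝ H]
variable {E : Type*} [Fintype E]

noncomputable local instance : DecidableEq H := Classical.decEq H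

/-- One step of the approximation scheme. -/
noncomputable def step (v : E → H) (lam : ℝ) (W : Finset H) : Finset H :=
  W ∪ ((W ×ˢ (Finset.univ : Finset E)).image (fun p => p.1 + lam • (p.1 - v p.2)) ∪
    (W ×ˢ (Finset.univ : Finset E)).image (fun p => p.1 - lam • (p.1 - v p.2)))

lemma card_step (v : E → H) (lam : ℝ) (W : Finset H) :
    (step v lam W).card ≤ W.card * (2 * Fintype.card E + 1) := by
  unfold step
  have h1 : ((W ×ˢ (Finset.univ : Finset E)).image (fun p => p.1 + lam • (p.1 - v p.2))).card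
      ≤ W.card * Fintype.card E := by
    refine Finset.card_image_le.trans ?_
    rw [Finset.card_product, Finset.card_univ]
  have h2 : ((W ×ˢ (Finset.univ : Finset E)).image (fun p => p.1 - lam • (p.1 - v p.2))).card
      ≤ W.card * Fintype.card E := by
    refine Finset.card_image_le.trans ?_
    rw [Finset.card_product, Finset.card_univ]
  have h3 := Finset.card_union_le
    ((W ×ˢ (Finset.univ : Finset E)).image (fun p => p.1 + lam • (p.1 - v p.2)))
    ((W ×ˢ (Finset.univ : Finset E)).image (fun p => p.1 - lam • (p.1 - v p.2)))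
  have h4 := Finset.card_union_le W
    ((W ×ˢ (Finset.univ : Finset E)).image (fun p => p.1 + lam • (p.1 - v p.2)) ∪
    (W ×ˢ (Finset.univ : Finset E)).image (fun p => p.1 - lam • (p.1 - v p.2)))
  nlinarith

/-- The iterated scheme. -/
noncomputable def Wk (v : E → H) (lam : ℝ) : ℕ → Finset H
  | 0 => Finset.univ.image v
  | (k+1) => step v lam (Wk v lam k)

lemma card_Wk (v : E → H) (lam : ℝ) (k : ℕ) :
    (Wk v lam k).card ≤ Fintype.card E * (2 * Fintype.card E + 1) ^ k := by
  induction k with
  | zero =>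
    simp only [Wk, pow_zero, mul_one]
    exact Finset.card_image_le.trans (by rw [Finset.card_univ])
  | succ k ih =>
    refine (card_step _ _ _).trans ?_
    rw [pow_succ, ← mul_assoc]
    exact Nat.mul_le_mul_right _ ih

lemma Wk_mono (v : E → H) (lam : ℝ) {k l : ℕ} (h : k ≤ l) : Wk v lam k ⊆ Wk v lam l := by
  induction h with
  | refl => exact subset_rfl
  | step _ ih => exact ih.trans (by simp only [Wk, step]; exact Finset.subset_union_left)

/-- `w` is a good approximation of `u` with respect to the points `v t`. -/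
def Good (v : E → H) (ep : ℝ) (u w : H) : Prop :=
  ∀ t, |inner ℝ (u - w) (w - v t)| ≤ ep * ‖u - v t‖ ^ 2

lemma exists_good [Nonempty E] (v : E → H) {ep : ℝ} (hep : 0 < ep) (K : ℕ)
    (hK : 1 < K * (ep ^ 2 / 4)) (u : H) :
    ∃ w ∈ Wk v (ep / 4) K, Good v ep u w := by
  classical
  obtain ⟨t1, ht1⟩ := Finite.exists_min (fun t => ‖u - v t‖ ^ 2)
  set r := ‖u - v t1‖ ^ 2 with hr
  have hr0 : 0 ≤ r := by positivity
  have key : ∀ k : ℕ, (∃ w ∈ Wk v (ep / 4) k, Good v ep u w) ∨
      (∃ w ∈ Wk v (ep / 4) k, ‖u - w‖ ^ 2 ≤ (1 - k * (ep ^ 2 / 4)) * r) := by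
    intro k
    induction k with
    | zero =>
      right
      refine ⟨v t1, ?_, ?_⟩
      · simp [Wk]
      · simp [hr]
    | succ k ih =>
      rcases ih with ⟨w, hw, hg⟩ | ⟨w, hw, hw2⟩
      · exact Or.inl ⟨w, Wk_mono v _ (Nat.le_succ k) hw, hg⟩
      · by_cases hg : Good v ep u w
        · exact Or.inl ⟨w, Wk_mono v _ (Nat.le_succ k) hw, hg⟩
        · right
          unfold Good at hg
          push Not at hg
          obtain ⟨t, ht⟩ := hg
          set R := ‖u - v t‖ ^ 2 with hR
          have hrR : r ≤ R := ht1 t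
          have her : ‖u - w‖ ^ 2 ≤ r := by
            refine hw2.trans ?_
            have : 0 ≤ (k:ℝ) * (ep ^ 2 / 4) * r := by positivity
            nlinarith
          have heR : ‖u - w‖ ^ 2 ≤ ‖u - v t‖ ^ 2 := her.trans hrR
          have heR' : ‖u - w‖ ≤ ‖u - v t‖ := by
            exact (sq_le_sq₀ (norm_nonneg _) (norm_nonneg _)).1 heR
          have hz : ‖w - v t‖ ≤ 2 * ‖u - v t‖ := by
            have : w - v t = (u - v t) - (u - w) := by abel
            rw [this]
            exact (norm_sub_le _ _).trans (by linarith)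
          have hz2 : ‖w - v t‖ ^ 2 ≤ 4 * R := by
            rw [hR]
            have := norm_nonneg (w - v t)
            nlinarith
          have hR0 : 0 ≤ R := by positivity
          rcases le_total 0 (inner ℝ (u - w) (w - v t)) with hs | hs
          · rw [abs_of_nonneg hs] at ht
            refine ⟨w + (ep / 4) • (w - v t), ?_, ?_⟩
            · simp only [Wk, step, Finset.mem_union, Finset.mem_image, Finset.mem_product]
              right; left
              exact ⟨(w, t), ⟨hw, Finset.mem_univ _⟩, rfl⟩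
            · have e1 : u - (w + (ep / 4) • (w - v t)) = (u - w) - (ep / 4) • (w - v t) := by abel
              rw [e1, norm_sub_sq_real, inner_smul_right, norm_smul, mul_pow, Real.norm_eq_abs,
                sq_abs]
              push_cast
              nlinarith [mul_le_mul_of_nonneg_left hz2 (show 0 ≤ (ep/4)^2 by positivity),
                mul_le_mul_of_nonneg_left ht.le (show 0 ≤ ep/4 by positivity),
                mul_le_mul_of_nonneg_left hrR (show 0 ≤ ep^2/4 by positivity)]
          · rw [abs_of_nonpos hs] at ht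
            refine ⟨w - (ep / 4) • (w - v t), ?_, ?_⟩
            · simp only [Wk, step, Finset.mem_union, Finset.mem_image, Finset.mem_product]
              right; right
              exact ⟨(w, t), ⟨hw, Finset.mem_univ _⟩, rfl⟩
            · have e1 : u - (w - (ep / 4) • (w - v t)) = (u - w) + (ep / 4) • (w - v t) := by abel
              rw [e1, norm_add_sq_real, inner_smul_right, norm_smul, mul_pow, Real.norm_eq_abs,
                sq_abs]
              push_cast
              nlinarith [mul_le_mul_of_nonneg_left hz2 (show 0 ≤ (ep/4)^2 by positivity),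
                mul_le_mul_of_nonneg_left ht.le (show 0 ≤ ep/4 by positivity),
                mul_le_mul_of_nonneg_left hrR (show 0 ≤ ep^2/4 by positivity)]
  rcases key K with h | ⟨w, hw, hw2⟩
  · exact h
  · refine ⟨w, hw, ?_⟩
    have hneg : (1 - (K:ℝ) * (ep ^ 2 / 4)) * r ≤ 0 :=
      mul_nonpos_of_nonpos_of_nonneg (by linarith) hr0
    have h0 : ‖u - w‖ ^ 2 = 0 := le_antisymm (hw2.trans hneg) (by positivity)
    have h1 : u - w = 0 := by simpa using h0
    intro t
    rw [h1]
    simp only [inner_zero_left, abs_zero]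
    positivity

end greedy

/-! ### Part 3: the one-parameter family -/

section oneparam

variable {E : Type*} [Fintype E]

lemma Th_add_small {D rho : ℝ} (hD : 0 ≤ D) (hr : 0 ≤ rho) :
    |Th (D + rho) - Th rho| ≤ 8 * (D / (1 + rho)) := by
  have := Th_lip hr (show 0 ≤ D + rho by linarith)
  rw [abs_sub_comm (Th rho)] at this
  refine this.trans ?_
  have e : |rho - (D + rho)| = D := by
    rw [abs_sub_comm]; rw [show D + rho - rho = D by ring]; exact abs_of_nonneg hD
  rw [e]

/-- `rho` is comparable with some `D t`. -/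
def Comp (D : E → ℝ) (B rho : ℝ) (t : E) : Prop := 0 < rho ∧ rho ≤ B * D t ∧ D t ≤ B * rho

lemma oneparam_A [Nonempty E] (D : E → ℝ) {B G : ℝ} (hB : 1 ≤ B) (hG : 0 < G) {eta : ℝ}
    (hGe : 8 / G < eta) (hD : ∀ t, 0 ≤ D t)
    (R : Finset ℝ)
    (hc : ∀ r ∈ R, ∃ t, Comp D B r t)
    (hsep : ∀ r ∈ R, ∀ s ∈ R, r ≠ s → ∃ t, eta ≤ |Th (D t + r) - Th (D t + s)|) :
    R.card ≤ Fintype.card E * (⌊G * B ^ 2⌋₊ + 1) := by
  classical
  choose! tt htt using hc
  have hmaps : ∀ r ∈ R, (tt r, ⌊G * B * r / D (tt r)⌋₊) ∈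
      (Finset.univ : Finset E) ×ˢ Finset.range (⌊G * B ^ 2⌋₊ + 1) := by
    intro r hr
    obtain ⟨h0, h1, h2⟩ := htt r hr
    have hDpos : 0 < D (tt r) := by
      rcases (hD (tt r)).eq_or_lt with h | h
      · rw [← h] at h1; simp at h1; linarith
      · exact h
    simp only [Finset.mem_product, Finset.mem_univ, Finset.mem_range, true_and]
    refine Nat.lt_succ_of_le (Nat.floor_le_floor ?_)
    rw [div_le_iff₀ hDpos]
    nlinarith [mul_le_mul_of_nonneg_left h1 (show 0 ≤ G * B by positivity)]
  have hinj : Set.InjOn (fun r => (tt r, ⌊G * B * r / D (tt r)⌋₊)) (R : Set ℝ) := by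
    intro r hr s hs hrs
    by_contra hne
    obtain ⟨t, ht⟩ := hsep r hr s hs hne
    obtain ⟨h0, h1, h2⟩ := htt r hr
    obtain ⟨h0', h1', h2'⟩ := htt s hs
    simp only [Prod.mk.injEq] at hrs
    obtain ⟨e1, e2⟩ := hrs
    rw [← e1] at e2 h1' h2'
    set d := D (tt r) with hd
    have hDpos : 0 < d := by
      rcases (hD (tt r)).eq_or_lt with h | h
      · rw [hd, ← h] at h1; simp at h1; linarith
      · exact h
    have hfl : |G * B * r / d - G * B * s / d| < 1 := by
      have ha : (0:ℝ) ≤ G * B * r / d := by positivity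
      have hb : (0:ℝ) ≤ G * B * s / d := by positivity
      have f1 := Nat.floor_le ha
      have f2 := Nat.lt_floor_add_one (G * B * r / d)
      have f3 := Nat.floor_le hb
      have f4 := Nat.lt_floor_add_one (G * B * s / d)
      rw [← e2] at f3 f4
      rw [abs_lt]; constructor <;> linarith
    have hrs2 : |r - s| ≤ r / G := by
      have e3 : G * B * r / d - G * B * s / d = (G * B / d) * (r - s) := by ring
      rw [e3, abs_mul, abs_of_pos (show 0 < G * B / d by positivity)] at hfl
      rw [le_div_iff₀ hG]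
      have h5 : G * B * |r - s| < d := by
        have := (div_lt_iff₀ hDpos).1 (show G * B * |r - s| / d < 1 by
          calc G * B * |r - s| / d = G * B / d * |r - s| := by ring
            _ < 1 := hfl)
        linarith
      have h6 : B * (|r - s| * G) ≤ B * r := by nlinarith
      exact le_of_mul_le_mul_left h6 (by linarith)
    have h7 := Th_lip (show 0 ≤ D t + r by linarith [hD t]) (show 0 ≤ D t + s by linarith [hD t])
    have h8 : |D t + r - (D t + s)| / (1 + (D t + r)) ≤ 1 / G := by
      rw [show D t + r - (D t + s) = r - s by ring]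
      rw [div_le_div_iff₀ (by linarith [hD t]) hG]
      have : |r - s| * G ≤ r := by rwa [le_div_iff₀ hG] at hrs2
      linarith [hD t]
    have h9 : |Th (D t + r) - Th (D t + s)| ≤ 8 * (1 / G) := h7.trans (by gcongr)
    have : 8 * (1 / G) = 8 / G := by ring
    linarith
  have := Finset.card_le_card_of_injOn _ hmaps hinj
  rw [Finset.card_product, Finset.card_univ, Finset.card_range] at this
  exact this

lemma oneparam_B (D : E → ℝ) {B L : ℝ} (hB : 0 < B) (hL : 0 < L) {eta : ℝ}
    (hBe : 16 / B + 1 / L ≤ eta) (hD : ∀ t, 0 ≤ D t)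
    (R : Finset ℝ) (hR : ∀ r ∈ R, 0 ≤ r)
    (hc : ∀ r ∈ R, ∀ t, ¬ Comp D B r t)
    (hsep : ∀ r ∈ R, ∀ s ∈ R, r ≠ s → ∃ t, eta ≤ |Th (D t + r) - Th (D t + s)|) :
    R.card ≤ (Fintype.card E + 1) * (⌊L⌋₊ + 1) := by
  classical
  have hmaps : ∀ r ∈ R, ((Finset.univ.filter (fun t => D t < r)).card, ⌊L * Th r⌋₊) ∈
      Finset.range (Fintype.card E + 1) ×ˢ Finset.range (⌊L⌋₊ + 1) := by
    intro r hr
    simp only [Finset.mem_product, Finset.mem_range]
    refine ⟨Nat.lt_succ_of_le (by rw [← Finset.card_univ]; exact Finset.card_filter_le _ _),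
      Nat.lt_succ_of_le (Nat.floor_le_floor ?_)⟩
    have := Th_le_one r
    nlinarith
  have main : ∀ r ∈ R, ∀ s ∈ R, r ≤ s →
      (Finset.univ.filter (fun t => D t < r)).card = (Finset.univ.filter (fun t => D t < s)).card →
      ⌊L * Th r⌋₊ = ⌊L * Th s⌋₊ → r = s := by
    intro r hr s hs hrs e1 e2
    by_contra hne
    obtain ⟨t, ht⟩ := hsep r hr s hs hne
    have hsub : Finset.univ.filter (fun t => D t < r) ⊆ Finset.univ.filter (fun t => D t < s) := by
      intro t ht
      simp only [Finset.mem_filter, Finset.mem_univ, true_and] at ht ⊢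
      linarith
    have heq := Finset.eq_of_subset_of_card_le hsub e1.ge
    have hr0 := hR r hr
    have hs0 := hR s hs
    by_cases htr : D t < r
    · -- small distances
      have hts : D t < s := by linarith
      have c1 := hc r hr t
      have c2 := hc s hs t
      unfold Comp at c1 c2
      push Not at c1 c2
      have hr' : 0 < r := lt_of_le_of_lt (hD t) htr
      have hs' : 0 < s := lt_of_le_of_lt (hD t) hts
      have d1 : B * D t < r := by
        by_contra hcon
        push Not at hcon
        have := c1 hr' hcon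
        -- B*r < D t < r and r ≤ B * D t
        have h2 : D t < r := htr
        nlinarith
      have d2 : B * D t < s := by
        by_contra hcon
        push Not at hcon
        have := c2 hs' hcon
        nlinarith
      have a1 := Th_add_small (hD t) hr0
      have a2 := Th_add_small (hD t) hs0
      have b1 : D t / (1 + r) ≤ 1 / B := by
        rw [div_le_div_iff₀ (by linarith) hB]; nlinarith
      have b2 : D t / (1 + s) ≤ 1 / B := by
        rw [div_le_div_iff₀ (by linarith) hB]; nlinarith
      have b3 : |Th r - Th s| < 1 / L := by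
        have hfl : |L * Th r - L * Th s| < 1 := by
          have ha : (0:ℝ) ≤ L * Th r := mul_nonneg hL.le (Th_nonneg hr0)
          have hb : (0:ℝ) ≤ L * Th s := mul_nonneg hL.le (Th_nonneg hs0)
          have f1 := Nat.floor_le ha
          have f2 := Nat.lt_floor_add_one (L * Th r)
          have f3 := Nat.floor_le hb
          have f4 := Nat.lt_floor_add_one (L * Th s)
          rw [← e2] at f3 f4
          rw [abs_lt]; constructor <;> linarith
        rw [← mul_sub, abs_mul, abs_of_pos hL] at hfl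
        rw [lt_div_iff₀ hL]; linarith
      have tri : |Th (D t + r) - Th (D t + s)| ≤
          |Th (D t + r) - Th r| + |Th r - Th s| + |Th (D t + s) - Th s| := by
        have h1 := abs_sub_le (Th (D t + r)) (Th r) (Th (D t + s))
        have h2 := abs_sub_le (Th r) (Th s) (Th (D t + s))
        rw [abs_sub_comm (Th s)] at h2
        linarith
      have : 16 / B = 8 * (1/B) + 8 * (1/B) := by ring
      linarith
    · -- large distances
      have hts : ¬ D t < s := by
        intro h
        have : t ∈ Finset.univ.filter (fun t => D t < s) := by simp [h]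
        rw [← heq] at this
        simp at this
        exact htr this
      push Not at htr hts
      have hbd : ∀ q ∈ R, 0 ≤ q → q ≤ D t → |Th (D t + q) - Th (D t)| ≤ 8 * (1 / B) := by
        intro q hq hq0 hqD
        have a1 := Th_add_small hq0 (hD t)
        rw [add_comm] at a1
        refine a1.trans ?_
        have : q / (1 + D t) ≤ 1 / B := by
          rw [div_le_div_iff₀ (by linarith [hD t]) hB]
          rcases hq0.eq_or_lt with h | h
          · rw [← h]; linarith [hD t]
          · have c1 := hc q hq t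
            unfold Comp at c1
            push Not at c1
            by_contra hcon
            push Not at hcon
            have hc3 : q ≤ B * D t := by
              by_contra h5
              push Not at h5
              -- B * D t < q ≤ D t , and 1*(1+D t) < q * B
              have := c1 h
              nlinarith
            have := c1 h hc3
            linarith
        gcongr
      have a1 := hbd r hr hr0 htr
      have a2 := hbd s hs hs0 hts
      have tri : |Th (D t + r) - Th (D t + s)| ≤
          |Th (D t + r) - Th (D t)| + |Th (D t + s) - Th (D t)| := by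
        have h1 := abs_sub_le (Th (D t + r)) (Th (D t)) (Th (D t + s))
        rw [abs_sub_comm (Th (D t)) (Th (D t + s))] at h1
        linarith
      have : 16 / B = 8 * (1/B) + 8 * (1/B) := by ring
      have : 0 < 1 / L := by positivity
      linarith
  have hinj : Set.InjOn (fun r => ((Finset.univ.filter (fun t => D t < r)).card, ⌊L * Th r⌋₊))
      (R : Set ℝ) := by
    intro r hr s hs hrs
    simp only [Prod.mk.injEq] at hrs
    rcases le_total r s with h | h
    · exact main r hr s hs h hrs.1 hrs.2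
    · exact (main s hs r hr h hrs.1.symm hrs.2.symm).symm
  have := Finset.card_le_card_of_injOn _ hmaps hinj
  rw [Finset.card_product, Finset.card_range, Finset.card_range] at this
  exact this

end oneparam

lemma oneparam {eta : ℝ} (heta : 0 < eta) : ∃ C : ℕ, ∀ (E : Type) [Fintype E] [Nonempty E]
    (D : E → ℝ), (∀ t, 0 ≤ D t) → ∀ R : Finset ℝ, (∀ r ∈ R, 0 ≤ r) →
    (∀ r ∈ R, ∀ s ∈ R, r ≠ s → ∃ t, eta ≤ |Th (D t + r) - Th (D t + s)|) →
    R.card ≤ C * (Fintype.card E + 1) := by
  classical
  set B : ℝ := max 1 (32 / eta) with hB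
  set G : ℝ := 16 / eta with hG
  set L : ℝ := 2 / eta with hL
  refine ⟨(⌊G * B ^ 2⌋₊ + 1) + (⌊L⌋₊ + 1), ?_⟩
  intro E _ _ D hD R hR hsep
  have hB1 : 1 ≤ B := le_max_left _ _
  have hB2 : 32 / eta ≤ B := le_max_right _ _
  have hGp : 0 < G := by positivity
  have hLp : 0 < L := by positivity
  have hA := oneparam_A D hB1 hGp (eta := eta) (by rw [hG]; field_simp; norm_num) hD
    (R.filter (fun r => ∃ t, Comp D B r t))
    (by intro r hr; exact (Finset.mem_filter.1 hr).2)
    (by intro r hr s hs; exact hsep r (Finset.mem_filter.1 hr).1 s (Finset.mem_filter.1 hs).1)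
  have hBB := oneparam_B D (B := B) (L := L) (by linarith) hLp (eta := eta)
    (by
      have h1 : 16 / B ≤ eta / 2 := by
        rw [div_le_iff₀ (by linarith)]
        have := (div_le_iff₀ heta).1 hB2
        linarith
      have h2 : 1 / L = eta / 2 := by rw [hL]; field_simp
      linarith) hD
    (R.filter (fun r => ¬ ∃ t, Comp D B r t))
    (by intro r hr; exact hR r (Finset.mem_filter.1 hr).1)
    (by intro r hr t ht; exact (Finset.mem_filter.1 hr).2 ⟨t, ht⟩)
    (by intro r hr s hs; exact hsep r (Finset.mem_filter.1 hr).1 s (Finset.mem_filter.1 hs).1)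
  have hsum := Finset.card_filter_add_card_filter_not (s := R) (fun r => ∃ t, Comp D B r t)
  nlinarith

/-! ### Part 4: the profile count -/

section profile

variable {H : Type*} [NormedAddCommGroup H] [InnerProductSpace ℝ H]

theorem profile_count {eta : ℝ} (heta : 0 < eta) : ∃ C K : ℕ, ∀ (E : Type) [Fintype E] [Nonempty E]
    (v : E → H) (α : Type) (P : Finset α) (f : α → H),
    (∀ a ∈ P, ∀ b ∈ P, a ≠ b → ∃ t, eta ≤ |Th (‖f a - v t‖ ^ 2) - Th (‖f b - v t‖ ^ 2)|) →
    P.card ≤ C * (2 * Fintype.card E + 1) ^ K := by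
  classical
  obtain ⟨C, hC⟩ := oneparam (show 0 < eta / 2 by positivity)
  set ep : ℝ := eta / 64 with hep
  have hep0 : 0 < ep := by positivity
  obtain ⟨K, hK⟩ := exists_nat_gt (1 / (ep ^ 2 / 4))
  have hK' : 1 < K * (ep ^ 2 / 4) := by
    rwa [div_lt_iff₀ (by positivity)] at hK
  refine ⟨C, K + 2, ?_⟩
  intro E _ _ v α P f hsep
  set W := Wk v (ep / 4) K with hW
  have hWc : W.card ≤ Fintype.card E * (2 * Fintype.card E + 1) ^ K := card_Wk _ _ _
  have hex : ∀ a ∈ P, ∃ w ∈ W, Good v ep (f a) w := fun a _ => exists_good v hep0 K hK' (f a)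
  choose! g hgW hgG using hex
  have hmaps : ∀ a ∈ P, g a ∈ W := hgW
  have hfib : ∀ w ∈ W, (P.filter (fun a => g a = w)).card ≤ C * (Fintype.card E + 1) := by
    intro w hw
    have hsep2 : ∀ a ∈ P.filter (fun a => g a = w), ∀ b ∈ P.filter (fun a => g a = w), a ≠ b →
        ∃ t, eta / 2 ≤ |Th (‖w - v t‖ ^ 2 + ‖f a - w‖ ^ 2) - Th (‖w - v t‖ ^ 2 + ‖f b - w‖ ^ 2)| := by
      intro a ha b hb hab
      obtain ⟨haP, haw⟩ := Finset.mem_filter.1 ha
      obtain ⟨hbP, hbw⟩ := Finset.mem_filter.1 hb
      obtain ⟨t, ht⟩ := hsep a haP b hbP hab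
      refine ⟨t, ?_⟩
      have approx : ∀ c ∈ P, g c = w →
          |Th (‖f c - v t‖ ^ 2) - Th (‖w - v t‖ ^ 2 + ‖f c - w‖ ^ 2)| ≤ eta / 4 := by
        intro c hc hcw
        have hg := hgG c hc t
        rw [hcw] at hg
        have e1 : ‖f c - v t‖ ^ 2 = ‖f c - w‖ ^ 2 + 2 * inner ℝ (f c - w) (w - v t)
            + ‖w - v t‖ ^ 2 := by
          have : f c - v t = (f c - w) + (w - v t) := by abel
          rw [this, norm_add_sq_real]
        have h1 := Th_lip (show 0 ≤ ‖f c - v t‖ ^ 2 by positivity)
          (show 0 ≤ ‖w - v t‖ ^ 2 + ‖f c - w‖ ^ 2 by positivity)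
        have e2 : ‖f c - v t‖ ^ 2 - (‖w - v t‖ ^ 2 + ‖f c - w‖ ^ 2)
            = 2 * inner ℝ (f c - w) (w - v t) := by rw [e1]; ring
        rw [e2, abs_mul, abs_of_pos (show (0:ℝ) < 2 by norm_num)] at h1
        refine h1.trans ?_
        have h2 : 2 * |inner ℝ (f c - w) (w - v t)| / (1 + ‖f c - v t‖ ^ 2) ≤ 2 * ep := by
          rw [div_le_iff₀ (by positivity)]
          nlinarith
        have : 8 * (2 * ep) = eta / 4 := by rw [hep]; ring
        calc _ ≤ 8 * (2 * ep) := by gcongr
          _ = eta / 4 := this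
      have ha1 := approx a haP haw
      have hb1 := approx b hbP hbw
      have tri : |Th (‖f a - v t‖ ^ 2) - Th (‖f b - v t‖ ^ 2)| ≤
          |Th (‖f a - v t‖ ^ 2) - Th (‖w - v t‖ ^ 2 + ‖f a - w‖ ^ 2)|
          + |Th (‖w - v t‖ ^ 2 + ‖f a - w‖ ^ 2) - Th (‖w - v t‖ ^ 2 + ‖f b - w‖ ^ 2)|
          + |Th (‖f b - v t‖ ^ 2) - Th (‖w - v t‖ ^ 2 + ‖f b - w‖ ^ 2)| := by
        have h1 := abs_sub_le (Th (‖f a - v t‖ ^ 2)) (Th (‖w - v t‖ ^ 2 + ‖f a - w‖ ^ 2))
          (Th (‖f b - v t‖ ^ 2))
        have h2 := abs_sub_le (Th (‖w - v t‖ ^ 2 + ‖f a - w‖ ^ 2))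
          (Th (‖w - v t‖ ^ 2 + ‖f b - w‖ ^ 2)) (Th (‖f b - v t‖ ^ 2))
        rw [abs_sub_comm (Th (‖w - v t‖ ^ 2 + ‖f b - w‖ ^ 2)) (Th (‖f b - v t‖ ^ 2))] at h2
        linarith
      linarith
    have hinj : Set.InjOn (fun a => ‖f a - w‖ ^ 2) (P.filter (fun a => g a = w) : Set α) := by
      intro a ha b hb hab
      by_contra hne
      obtain ⟨t, ht⟩ := hsep2 a ha b hb hne
      simp only at hab
      rw [hab] at ht
      simp at ht
      linarith
    rw [← Finset.card_image_of_injOn hinj]
    refine hC E (fun t => ‖w - v t‖ ^ 2) (fun t => by positivity) _ ?_ ?_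
    · intro r hr
      obtain ⟨a, _, rfl⟩ := Finset.mem_image.1 hr
      positivity
    · intro r hr s hs hrs
      obtain ⟨a, ha, rfl⟩ := Finset.mem_image.1 hr
      obtain ⟨b, hb, rfl⟩ := Finset.mem_image.1 hs
      exact hsep2 a ha b hb (fun h => hrs (by rw [h]))
  have h1 : P.card ≤ (C * (Fintype.card E + 1)) * W.card :=
    Finset.card_le_mul_card_image_of_maps_to hmaps _ hfib
  refine h1.trans ?_
  have h2 : Fintype.card E + 1 ≤ 2 * Fintype.card E + 1 := by omega
  have h3 : Fintype.card E ≤ 2 * Fintype.card E + 1 := by omega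
  calc C * (Fintype.card E + 1) * W.card
      ≤ C * (2 * Fintype.card E + 1) * ((2 * Fintype.card E + 1) * (2 * Fintype.card E + 1) ^ K) := by
        gcongr
        exact hWc.trans (Nat.mul_le_mul_right _ h3)
    _ = C * (2 * Fintype.card E + 1) ^ (K + 2) := by ring

end profile

end Pool.Agent.N824.NullMeq
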