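import Mathlib
import Pool.Agent.N824.NullA

set_option autoImplicit false

namespace Pool.Agent.N824.NullMeq

open Finset

/-! ### Part 5: a recurrent unbounded isometry orbit in a Hilbert space -/

/-- The Hilbert space. -/
abbrev Hs : Type := lp (fun _ : ℕ => ℂ) 2

/-- The angle. -/
noncomputable def ang (n : ℤ) (j : ℕ) : ℝ := 2 * Real.pi * n / 4 ^ (j ^ 2)

/-- The character. -/
noncomputable def ee (n : ℤ) (j : ℕ) : ℂ := Complex.exp (Complex.I * (ang n j : ℝ))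

/-- The coordinates of the cocycle. -/
noncomputable def aa (n : ℤ) (j : ℕ) : ℂ := (Real.sqrt (8 ^ j) : ℂ) * (ee n j - 1)

lemma ang_add (n m : ℤ) (j : ℕ) : ang (n + m) j = ang n j + ang m j := by
  unfold ang; push_cast; ring

lemma ee_add (n m : ℤ) (j : ℕ) : ee (n + m) j = ee n j * ee m j := by
  unfold ee
  rw [ang_add, ← Complex.exp_add]; push_cast; ring_nf

lemma norm_ee (n : ℤ) (j : ℕ) : ‖ee n j‖ = 1 := by
  unfold ee
  rw [mul_comm]; exact Complex.norm_exp_ofReal_mul_I _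

lemma norm_aa_sq (n : ℤ) (j : ℕ) : ‖aa n j‖ ^ 2 = 8 ^ j * ‖ee n j - 1‖ ^ 2 := by
  unfold aa
  rw [norm_mul, mul_pow]
  congr 1
  rw [Complex.norm_real, Real.norm_eq_abs, sq_abs, Real.sq_sqrt (by positivity)]

lemma norm_ee_sub_one_le (n : ℤ) (j : ℕ) : ‖ee n j - 1‖ ≤ |ang n j| := by
  unfold ee
  have := Real.norm_exp_I_mul_ofReal_sub_one_le (x := ang n j)
  rwa [Real.norm_eq_abs] at this

lemma norm_ee_sub_one_le_two (n : ℤ) (j : ℕ) : ‖ee n j - 1‖ ≤ 2 := by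
  refine (norm_sub_le _ _).trans ?_
  rw [norm_ee, norm_one]; norm_num

lemma term_le (n : ℤ) (j : ℕ) :
    8 ^ j * ‖ee n j - 1‖ ^ 2 ≤ 4 * Real.pi ^ 2 * n ^ 2 * (8 ^ j / 16 ^ (j ^ 2)) := by
  have h1 : ‖ee n j - 1‖ ^ 2 ≤ |ang n j| ^ 2 := by
    gcongr; exact norm_ee_sub_one_le n j
  rw [sq_abs] at h1
  have h2 : ang n j ^ 2 = 4 * Real.pi ^ 2 * n ^ 2 / 16 ^ (j ^ 2) := by
    unfold ang
    rw [div_pow, ← pow_mul, mul_comm (j ^ 2) 2, pow_mul]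
    norm_num
    ring
  calc 8 ^ j * ‖ee n j - 1‖ ^ 2 ≤ 8 ^ j * ang n j ^ 2 := by gcongr
    _ = _ := by rw [h2]; ring

lemma ratio_le (j : ℕ) : (8:ℝ) ^ j / 16 ^ (j ^ 2) ≤ (1 / 2) ^ j := by
  rw [div_le_iff₀ (by positivity)]
  have h1 : (16:ℝ) ^ j ≤ 16 ^ (j ^ 2) := by
    apply pow_le_pow_right₀ (by norm_num)
    nlinarith [Nat.zero_le j, Nat.le_self_pow (show (2:ℕ) ≠ 0 by norm_num) j]
  calc (8:ℝ) ^ j = (1/2) ^ j * 16 ^ j := by rw [← mul_pow]; norm_num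
    _ ≤ _ := by gcongr

lemma summ (n : ℤ) : Summable (fun j : ℕ => (8:ℝ) ^ j * ‖ee n j - 1‖ ^ 2) := by
  refine Summable.of_nonneg_of_le (fun j => by positivity) (fun j => ?_)
    ((summable_geometric_of_lt_one (show (0:ℝ) ≤ 1/2 by norm_num) (by norm_num)).mul_left
      (4 * Real.pi ^ 2 * n ^ 2))
  refine (term_le n j).trans ?_
  gcongr
  exact ratio_le j

lemma two_toReal : (2 : ENNReal).toReal = 2 := by norm_num

lemma memaa (n : ℤ) : Memℓp (fun j => aa n j) 2 := by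
  apply memℓp_gen
  rw [two_toReal]
  refine (summ n).congr (fun j => ?_)
  rw [Real.rpow_two, norm_aa_sq]

/-- The cocycle. -/
noncomputable def bb (n : ℤ) : Hs := ⟨fun j => aa n j, memaa n⟩

lemma norm_sq_Hs (f : Hs) : HasSum (fun j => ‖f j‖ ^ 2) (‖f‖ ^ 2) := by
  have := lp.hasSum_norm (E := fun _ : ℕ => ℂ) (p := 2) (by norm_num) f
  simpa only [two_toReal, Real.rpow_two] using this

/-- The squared length. -/
noncomputable def psi (n : ℤ) : ℝ := ‖bb n‖ ^ 2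

lemma psi_nonneg (n : ℤ) : 0 ≤ psi n := by unfold psi; positivity

lemma psi_hasSum (n : ℤ) : HasSum (fun j : ℕ => (8:ℝ) ^ j * ‖ee n j - 1‖ ^ 2) (psi n) := by
  have := norm_sq_Hs (bb n)
  have e : (fun j => ‖(bb n) j‖ ^ 2) = (fun j : ℕ => (8:ℝ) ^ j * ‖ee n j - 1‖ ^ 2) := by
    funext j
    exact norm_aa_sq n j
  rw [e] at this
  exact this

lemma norm_bb_sub (p t : ℤ) : ‖bb p - bb (-t)‖ = ‖bb (p + t)‖ := by
  have h1 := norm_sq_Hs (bb p - bb (-t))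
  have h2 := norm_sq_Hs (bb (p + t))
  have e : (fun j => ‖(bb p - bb (-t)) j‖ ^ 2) = (fun j => ‖(bb (p + t)) j‖ ^ 2) := by
    funext j
    have e1 : (bb p - bb (-t)) j = aa p j - aa (-t) j := rfl
    have e2 : bb (p + t) j = aa (p + t) j := rfl
    rw [e1, e2]
    have e3 : aa p j - aa (-t) j = ee (-t) j * aa (p + t) j := by
      unfold aa
      have h : ee (-t) j * ee (p + t) j = ee p j := by
        rw [← ee_add]; congr 1; ring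
      calc _ = (Real.sqrt (8 ^ j) : ℂ) * (ee p j - ee (-t) j) := by ring
        _ = (Real.sqrt (8 ^ j) : ℂ) * (ee (-t) j * ee (p + t) j - ee (-t) j) := by rw [h]
        _ = _ := by ring
    rw [e3, norm_mul, norm_ee, one_mul]
  rw [e] at h1
  have h3 := h1.unique h2
  exact (sq_eq_sq₀ (norm_nonneg _) (norm_nonneg _)).1 h3

/-- lengths are subadditive in the strong form -/
lemma norm_bb_diff (m i : ℤ) : |‖bb (m + i)‖ - ‖bb m‖| ≤ ‖bb i‖ := by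
  have h1 : ‖bb (m + i) - bb m‖ = ‖bb i‖ := by
    have := norm_bb_sub (m + i) (-m)
    rw [neg_neg] at this
    rw [this]; congr 2; ring
  exact (abs_norm_sub_norm_le _ _).trans h1.le

/-- the times -/
def qq (k : ℕ) : ℕ := 4 ^ (k ^ 2)

lemma ee_qq {i j : ℕ} (h : j ≤ i) : ee (qq i) j = 1 := by
  unfold ee ang qq
  have h2 : j ^ 2 ≤ i ^ 2 := Nat.pow_le_pow_left h 2
  have e : 2 * Real.pi * (((4 ^ (i ^ 2) : ℕ) : ℤ) : ℝ) / 4 ^ (j ^ 2) =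
      ((4 ^ (i ^ 2 - j ^ 2) : ℕ) : ℝ) * (2 * Real.pi) := by
    push_cast
    rw [div_eq_iff (by positivity), ← pow_sub_mul_pow (4:ℝ) h2]
    ring
  rw [e]
  have := Complex.exp_nat_mul_two_pi_mul_I (4 ^ (i ^ 2 - j ^ 2))
  rw [← this]; congr 1; push_cast; ring

lemma term_qq_le (i j : ℕ) :
    (8:ℝ) ^ j * ‖ee (qq i) j - 1‖ ^ 2 ≤ 4 * Real.pi ^ 2 * (1/2) ^ i * (1/2) ^ j := by
  rcases Nat.lt_or_ge i j with h | h
  · refine (term_le _ j).trans ?_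
    have e1 : (((qq i : ℕ) : ℤ) : ℝ) ^ 2 = 16 ^ (i ^ 2) := by
      unfold qq; push_cast; rw [← pow_mul, mul_comm, pow_mul]; norm_num
    rw [e1]
    have key : (16:ℝ) ^ (i ^ 2) * (8 ^ j / 16 ^ (j ^ 2)) ≤ (1/2) ^ i * (1/2) ^ j := by
      rw [← mul_div_assoc, div_le_iff₀ (by positivity)]
      have h3 : (16:ℝ) ^ (j + i ^ 2 + i) ≤ 16 ^ (j ^ 2) := by
        apply pow_le_pow_right₀ (by norm_num)
        nlinarith
      have h4 : (2:ℝ) ^ i ≤ 16 ^ i := by gcongr; norm_num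
      have h5 : (16:ℝ) ^ (i ^ 2) * 8 ^ j = (1/2) ^ i * (1/2) ^ j * (16 ^ j * 16 ^ (i ^ 2) * 2 ^ i) := by
        have a1 : ((1:ℝ)/2) ^ i * 2 ^ i = 1 := by rw [← mul_pow]; norm_num
        have a2 : ((1:ℝ)/2) ^ j * 16 ^ j = 8 ^ j := by rw [← mul_pow]; norm_num
        calc (16:ℝ) ^ (i ^ 2) * 8 ^ j = 16 ^ (i ^ 2) * (((1:ℝ)/2) ^ j * 16 ^ j) * (((1:ℝ)/2) ^ i * 2 ^ i) := by
              rw [a1, a2]; ring
          _ = _ := by ring
      rw [h5]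
      have h6 : (16:ℝ) ^ j * 16 ^ (i ^ 2) * 2 ^ i ≤ 16 ^ (j ^ 2) := by
        refine le_trans ?_ h3
        rw [pow_add, pow_add]
        gcongr
      gcongr
    calc 4 * Real.pi ^ 2 * 16 ^ (i ^ 2) * (8 ^ j / 16 ^ (j ^ 2))
        = 4 * Real.pi ^ 2 * (16 ^ (i ^ 2) * (8 ^ j / 16 ^ (j ^ 2))) := by ring
      _ ≤ 4 * Real.pi ^ 2 * ((1/2) ^ i * (1/2) ^ j) := by gcongr
      _ = _ := by ring
  · rw [ee_qq h]; simp; positivity

lemma psi_qq_le (i : ℕ) : psi (qq i) ≤ 8 * Real.pi ^ 2 * (1/2) ^ i := by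
  have h1 : HasSum (fun j : ℕ => 4 * Real.pi ^ 2 * (1/2) ^ i * ((1:ℝ)/2) ^ j)
      (4 * Real.pi ^ 2 * (1/2) ^ i * 2) := by
    exact hasSum_geometric_two.mul_left _
  have h2 := hasSum_le (fun j => term_qq_le i j) (psi_hasSum (qq i)) h1
  linarith

lemma tendsto_norm_qq : Filter.Tendsto (fun i => ‖bb (qq i)‖) Filter.atTop (nhds 0) := by
  have h1 : Filter.Tendsto (fun i : ℕ => 8 * Real.pi ^ 2 * ((1:ℝ)/2) ^ i) Filter.atTop (nhds 0) := by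
    have := (tendsto_pow_atTop_nhds_zero_of_lt_one (show (0:ℝ) ≤ 1/2 by norm_num)
      (by norm_num)).const_mul (8 * Real.pi ^ 2)
    simpa using this
  have h2 : Filter.Tendsto (fun i : ℕ => psi (qq i)) Filter.atTop (nhds 0) :=
    squeeze_zero (fun i => psi_nonneg _) psi_qq_le h1
  have h3 := (Real.continuous_sqrt.tendsto 0).comp h2
  rw [Real.sqrt_zero] at h3
  refine h3.congr (fun i => ?_)
  simp only [Function.comp, psi]
  exact Real.sqrt_sq (norm_nonneg _)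

lemma psi_lower {k n : ℕ} (h1 : qq k ≤ 4 * n) (h2 : 4 * n ≤ 3 * qq k) : 2 * 8 ^ k ≤ psi n := by
  have h3 := le_hasSum (psi_hasSum n) k (fun j _ => by positivity)
  refine le_trans ?_ h3
  have h4 : 2 ≤ ‖ee n k - 1‖ ^ 2 := by
    unfold ee
    rw [Complex.norm_exp_I_mul_ofReal_sub_one, Real.norm_eq_abs, sq_abs, mul_pow,
      Real.sin_sq_eq_half_sub, show 2 * (ang n k / 2) = ang n k by ring]
    have hq : (0:ℝ) < 4 ^ (k ^ 2) := by positivity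
    have h1' : (4:ℝ) ^ (k ^ 2) ≤ 4 * n := by
      have : ((qq k : ℕ) : ℝ) ≤ ((4 * n : ℕ) : ℝ) := by exact_mod_cast h1
      unfold qq at this; push_cast at this; exact this
    have h2' : 4 * (n:ℝ) ≤ 3 * 4 ^ (k ^ 2) := by
      have : ((4 * n : ℕ) : ℝ) ≤ ((3 * qq k : ℕ) : ℝ) := by exact_mod_cast h2
      unfold qq at this; push_cast at this; exact this
    have hc : Real.cos (ang n k) ≤ 0 := by
      apply Real.cos_nonpos_of_pi_div_two_le_of_le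
      · unfold ang
        rw [le_div_iff₀ hq]; push_cast
        nlinarith [Real.pi_pos]
      · unfold ang
        rw [div_le_iff₀ hq]; push_cast
        nlinarith [Real.pi_pos]
    linarith
  nlinarith [show (0:ℝ) < 8 ^ k by positivity]

lemma tail_term_le {k n l : ℕ} (h2 : n ≤ qq k) (hl : k + 1 ≤ l) :
    (8:ℝ) ^ l * ‖ee n l - 1‖ ^ 2 ≤ 4 * Real.pi ^ 2 * (1/2) ^ k * (1/2) ^ l := by
  refine (term_le n l).trans ?_
  have e1 : (((n : ℕ) : ℤ) : ℝ) ^ 2 ≤ 16 ^ (k ^ 2) := by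
    have : ((n : ℕ) : ℝ) ≤ 4 ^ (k ^ 2) := by
      have : ((n : ℕ) : ℝ) ≤ ((qq k : ℕ) : ℝ) := by exact_mod_cast h2
      unfold qq at this; push_cast at this; exact this
    calc (((n : ℕ) : ℤ) : ℝ) ^ 2 ≤ (4 ^ (k ^ 2)) ^ 2 := by push_cast; gcongr
      _ = 16 ^ (k ^ 2) := by rw [← pow_mul, mul_comm, pow_mul]; norm_num
  have key : (16:ℝ) ^ (k ^ 2) * (8 ^ l / 16 ^ (l ^ 2)) ≤ (1/2) ^ k * (1/2) ^ l := by
    rw [← mul_div_assoc, div_le_iff₀ (by positivity)]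
    have h3 : (16:ℝ) ^ (l + k ^ 2 + k) ≤ 16 ^ (l ^ 2) := by
      apply pow_le_pow_right₀ (by norm_num)
      nlinarith
    have h5 : (16:ℝ) ^ (k ^ 2) * 8 ^ l = (1/2) ^ k * (1/2) ^ l * (16 ^ l * 16 ^ (k ^ 2) * 2 ^ k) := by
      have a1 : ((1:ℝ)/2) ^ k * 2 ^ k = 1 := by rw [← mul_pow]; norm_num
      have a2 : ((1:ℝ)/2) ^ l * 16 ^ l = 8 ^ l := by rw [← mul_pow]; norm_num
      calc (16:ℝ) ^ (k ^ 2) * 8 ^ l = 16 ^ (k ^ 2) * (((1:ℝ)/2) ^ l * 16 ^ l) * (((1:ℝ)/2) ^ k * 2 ^ k) := by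
            rw [a1, a2]; ring
        _ = _ := by ring
    rw [h5]
    have h6 : (16:ℝ) ^ l * 16 ^ (k ^ 2) * 2 ^ k ≤ 16 ^ (l ^ 2) := by
      refine le_trans ?_ h3
      rw [pow_add, pow_add]
      gcongr
      norm_num
    gcongr
  calc 4 * Real.pi ^ 2 * (((n : ℕ) : ℤ) : ℝ) ^ 2 * (8 ^ l / 16 ^ (l ^ 2))
      ≤ 4 * Real.pi ^ 2 * 16 ^ (k ^ 2) * (8 ^ l / 16 ^ (l ^ 2)) := by gcongr
    _ = 4 * Real.pi ^ 2 * (16 ^ (k ^ 2) * (8 ^ l / 16 ^ (l ^ 2))) := by ring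
    _ ≤ 4 * Real.pi ^ 2 * ((1/2) ^ k * (1/2) ^ l) := by gcongr
    _ = _ := by ring

lemma head_le (k n : ℕ) : ∑ j ∈ Finset.range (k + 1), (8:ℝ) ^ j * ‖ee n j - 1‖ ^ 2 ≤
      4 * ((8 ^ (k + 1) - 1) / 7) := by
  have h3 : ∑ j ∈ Finset.range (k + 1), (8:ℝ) ^ j * ‖ee n j - 1‖ ^ 2 ≤
      ∑ j ∈ Finset.range (k + 1), 4 * (8:ℝ) ^ j := by
    apply Finset.sum_le_sum
    intro j _
    have := norm_ee_sub_one_le_two n j
    have h0 := norm_nonneg (ee n j - 1)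
    have h4 : ‖ee n j - 1‖ ^ 2 ≤ 4 := by nlinarith
    nlinarith [show (0:ℝ) < 8 ^ j by positivity]
  rw [← Finset.mul_sum, geom_sum_eq (by norm_num)] at h3
  norm_num at h3 ⊢
  linarith

lemma psi_upper {k n : ℕ} (hk : 2 ≤ k) (h2 : n ≤ qq k) : psi n ≤ 5 * 8 ^ k := by
  have hs := (psi_hasSum n)
  have e := (hs.summable.sum_add_tsum_nat_add (k + 1))
  rw [hs.tsum_eq] at e
  have hA := head_le k n
  have hs2 : Summable (fun j : ℕ => (8:ℝ) ^ (j + (k+1)) * ‖ee n (j + (k+1)) - 1‖ ^ 2) :=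
    (summable_nat_add_iff (f := fun j : ℕ => (8:ℝ) ^ j * ‖ee n j - 1‖ ^ 2) (k+1)).2 hs.summable
  have hg : HasSum (fun j : ℕ => 4 * Real.pi ^ 2 * (1/2) ^ k * (1/2) ^ (k+1) * ((1:ℝ)/2) ^ j)
        (4 * Real.pi ^ 2 * (1/2) ^ k * (1/2) ^ (k+1) * 2) := hasSum_geometric_two.mul_left _
  have hterm : ∀ j : ℕ, (8:ℝ) ^ (j + (k+1)) * ‖ee n (j + (k+1)) - 1‖ ^ 2 ≤
      4 * Real.pi ^ 2 * (1/2) ^ k * (1/2) ^ (k+1) * ((1:ℝ)/2) ^ j := by
    intro j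
    have := tail_term_le (k := k) (n := n) (l := j + (k+1)) h2 (by omega)
    refine this.trans (le_of_eq ?_)
    rw [pow_add (1/2:ℝ) j (k+1)]; ring
  have hB : ∑' j : ℕ, (8:ℝ) ^ (j + (k + 1)) * ‖ee n (j + (k + 1)) - 1‖ ^ 2 ≤
      4 * Real.pi ^ 2 * (1/2) ^ k * (1/2) ^ (k+1) * 2 := by
    rw [← hg.tsum_eq]
    exact Summable.tsum_le_tsum hterm hs2 hg.summable
  have hpi : Real.pi ^ 2 ≤ 10 := by nlinarith [Real.pi_lt_d2, Real.pi_pos]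
  have h8 : (64:ℝ) ≤ 8 ^ k := by
    calc (64:ℝ) = 8 ^ 2 := by norm_num
      _ ≤ 8 ^ k := pow_le_pow_right₀ (by norm_num) hk
  have h9 : ((1:ℝ)/2) ^ k ≤ 1 / 4 := by
    calc ((1:ℝ)/2) ^ k ≤ (1/2) ^ 2 := pow_le_pow_of_le_one (by norm_num) (by norm_num) hk
      _ = 1 / 4 := by norm_num
  have h10 : 4 * Real.pi ^ 2 * (1/2) ^ k * (1/2) ^ (k+1) * 2 ≤ 5 := by
    have e3 : 4 * Real.pi ^ 2 * ((1:ℝ)/2) ^ k * (1/2) ^ (k+1) * 2 =
        4 * Real.pi ^ 2 * (((1:ℝ)/2) ^ k * (1/2) ^ k) := by rw [pow_succ]; ring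
    rw [e3]
    have : ((1:ℝ)/2) ^ k * (1/2) ^ k ≤ 1/4 * (1/4) := by gcongr
    nlinarith
  have h11 : (8:ℝ) ^ (k+1) = 8 * 8 ^ k := by rw [pow_succ]; ring
  rw [h11] at hA
  linarith

end Pool.Agent.N824.NullMeq
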