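import Mathlib
import Pool.Agent.N824.NullB

set_option autoImplicit false

namespace Pool.Agent.N824.NullMeq

open Finset

/-- The generating sequence. -/
noncomputable def xs (n : ℕ) : ℝ := Th (psi n)

lemma xs_nonneg (n : ℕ) : 0 ≤ xs n := Th_nonneg (psi_nonneg _)

lemma xs_le_one (n : ℕ) : xs n ≤ 1 := Th_le_one _

lemma Th_norm_diff (a b s : ℝ) (ha : 0 ≤ a) (hb : 0 ≤ b) (hs : 0 ≤ s) (h : |b - a| ≤ s) :
    |Th (b ^ 2) - Th (a ^ 2)| ≤ 8 * (s * (1 + s)) := by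
  have h1 := Th_lip (show 0 ≤ a ^ 2 by positivity) (show 0 ≤ b ^ 2 by positivity)
  rw [abs_sub_comm]
  refine h1.trans ?_
  have h2 : |a ^ 2 - b ^ 2| ≤ s * (2 * a + s) := by
    have e : a ^ 2 - b ^ 2 = -((b - a) * (b + a)) := by ring
    rw [e, abs_neg, abs_mul]
    have h3 : |b + a| ≤ 2 * a + s := by
      rw [abs_of_nonneg (by linarith)]
      have := abs_le.1 h
      linarith [this.2]
    gcongr
  have h4 : |a ^ 2 - b ^ 2| / (1 + a ^ 2) ≤ s * (1 + s) := by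
    rw [div_le_iff₀ (by positivity)]
    refine h2.trans ?_
    have h5 : 2 * a ≤ 1 + a ^ 2 := by nlinarith [sq_nonneg (a - 1)]
    have h6 : s * (2 * a + s) ≤ s * (1 + a ^ 2 + s) := by gcongr
    nlinarith [mul_nonneg hs hs, sq_nonneg a, mul_nonneg (mul_nonneg hs hs) (sq_nonneg a)]
  gcongr

lemma xs_rec {eta : ℝ} (heta : 0 < eta) (N0 : ℕ) : ∃ L, N0 < L ∧ ∀ n, |xs (n + L) - xs n| < eta := by
  have h1 := tendsto_norm_qq
  have h2 : Filter.Tendsto (fun i => 8 * (‖bb (qq i)‖ * (1 + ‖bb (qq i)‖))) Filter.atTop (nhds 0) := by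
    have := ((h1.mul (h1.const_add 1)).const_mul 8)
    simpa using this
  have h3 : ∀ᶠ i in Filter.atTop, 8 * (‖bb (qq i)‖ * (1 + ‖bb (qq i)‖)) < eta :=
    h2.eventually (gt_mem_nhds heta)
  obtain ⟨i, hi, hiN⟩ := (h3.and (Filter.eventually_ge_atTop (N0 + 1))).exists
  refine ⟨qq i, ?_, ?_⟩
  · unfold qq
    have : i < 4 ^ i := Nat.lt_pow_self (by norm_num)
    have h5 : 4 ^ i ≤ 4 ^ (i ^ 2) := Nat.pow_le_pow_right (by norm_num) (Nat.le_self_pow (by norm_num) i)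
    omega
  · intro n
    refine lt_of_le_of_lt ?_ hi
    unfold xs psi
    apply Th_norm_diff _ _ _ (norm_nonneg _) (norm_nonneg _) (norm_nonneg _)
    have := norm_bb_diff n (qq i)
    push_cast
    exact this

lemma xs_plateau {k n : ℕ} (hk : 2 ≤ k) (h1 : qq k ≤ 4 * n) (h2 : 4 * n ≤ 3 * qq k) : xs n = 1 :=
  Th_plateau (psi_lower h1 h2) (psi_upper hk (by omega))

lemma sum_xs {k : ℕ} (hk : 2 ≤ k) : (qq k : ℝ) / 2 ≤ ∑ n ∈ Finset.range (qq k), xs n := by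
  obtain ⟨s, hs⟩ : ∃ s, qq k = 4 * s := by
    refine ⟨4 ^ (k ^ 2 - 1), ?_⟩
    unfold qq
    rw [← pow_succ']
    congr 1
    have : 1 ≤ k ^ 2 := Nat.one_le_pow _ _ (by omega)
    omega
  have hsub : Finset.Ico s (3 * s) ⊆ Finset.range (qq k) := by
    intro n hn
    rw [Finset.mem_Ico] at hn
    rw [Finset.mem_range]; omega
  have h1 : ∑ n ∈ Finset.Ico s (3 * s), xs n ≤ ∑ n ∈ Finset.range (qq k), xs n :=
    Finset.sum_le_sum_of_subset_of_nonneg hsub (fun n _ _ => xs_nonneg n)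
  refine le_trans ?_ h1
  have h2 : ∑ n ∈ Finset.Ico s (3 * s), xs n = ∑ n ∈ Finset.Ico s (3 * s), (1:ℝ) := by
    apply Finset.sum_congr rfl
    intro n hn
    rw [Finset.mem_Ico] at hn
    exact xs_plateau hk (by omega) (by omega)
  rw [h2, Finset.sum_const, Nat.card_Ico, hs]
  simp only [nsmul_eq_mul, mul_one]
  rw [Nat.cast_sub (by omega)]
  push_cast
  linarith

lemma psi_zero : psi 0 = 0 := by
  have h := psi_hasSum 0
  have e : (fun j : ℕ => (8:ℝ) ^ j * ‖ee 0 j - 1‖ ^ 2) = fun _ => 0 := by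
    funext j
    have : ee 0 j = 1 := by unfold ee ang; simp
    rw [this]; simp
  rw [e] at h
  exact h.unique hasSum_zero

/-- The orbit passes close to the constant zero sequence for a long time. -/
lemma xs_near_zero {eta : ℝ} (heta : 0 < eta) (M : ℕ) : ∃ m, ∀ i < M, xs (m + i) < eta := by
  -- bound of the lengths of the first steps
  obtain ⟨S, hS0, hS⟩ : ∃ S : ℝ, 0 < S ∧ ∀ i < M + 1, ‖bb i‖ + ‖bb 1‖ ≤ S := by
    refine ⟨∑ i ∈ Finset.range (M + 1), (‖bb i‖ + ‖bb 1‖) + 1, by positivity, ?_⟩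
    intro i hi
    have := Finset.single_le_sum (f := fun i : ℕ => ‖bb i‖ + ‖bb 1‖) (fun j _ => by positivity)
      (Finset.mem_range.2 hi)
    linarith
  -- choose l
  have hlim : Filter.Tendsto (fun l : ℕ => 8 * (S * (2 * (Real.sqrt (8 ^ l)) + S) / (8 ^ l)))
      Filter.atTop (nhds 0) := by
    have h8 : Filter.Tendsto (fun l : ℕ => Real.sqrt ((8:ℝ) ^ l)) Filter.atTop Filter.atTop :=
      Real.tendsto_sqrt_atTop.comp (tendsto_pow_atTop_atTop_of_one_lt (by norm_num))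
    have h9 : Filter.Tendsto (fun l : ℕ => (Real.sqrt ((8:ℝ) ^ l))⁻¹) Filter.atTop (nhds 0) :=
      tendsto_inv_atTop_zero.comp h8
    have h10 : Filter.Tendsto (fun l : ℕ => 8 * (S * (2 * (Real.sqrt ((8:ℝ) ^ l))⁻¹ +
        S * ((Real.sqrt ((8:ℝ) ^ l))⁻¹ * (Real.sqrt ((8:ℝ) ^ l))⁻¹)))) Filter.atTop (nhds 0) := by
      have := (((h9.const_mul 2).add ((h9.mul h9).const_mul S)).const_mul S).const_mul 8
      simpa using this
    refine h10.congr (fun l => ?_)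
    have hp : (0:ℝ) < 8 ^ l := by positivity
    have hsq : Real.sqrt ((8:ℝ) ^ l) * Real.sqrt ((8:ℝ) ^ l) = 8 ^ l := Real.mul_self_sqrt hp.le
    have hsp : 0 < Real.sqrt ((8:ℝ) ^ l) := Real.sqrt_pos.2 hp
    set q := Real.sqrt ((8:ℝ) ^ l) with hq
    rw [← hsq]
    field_simp
  obtain ⟨l, hl⟩ := (hlim.eventually (gt_mem_nhds heta)).exists
  -- the first time the length exceeds 8^l
  have hex : ∃ n : ℕ, 8 ^ l ≤ psi n := by
    obtain ⟨s, hs⟩ : ∃ s, qq (l + 1) = 4 * s := by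
      refine ⟨4 ^ ((l+1) ^ 2 - 1), ?_⟩
      unfold qq
      have h1 : 1 ≤ (l+1) ^ 2 := Nat.one_le_pow _ _ (by omega)
      have h2 : (l+1) ^ 2 - 1 + 1 = (l+1) ^ 2 := by omega
      rw [← pow_succ', h2]
    refine ⟨s, ?_⟩
    have := psi_lower (k := l + 1) (n := s) (by omega) (by omega)
    have h8 : (8:ℝ) ^ (l+1) = 8 * 8 ^ l := by rw [pow_succ]; ring
    rw [h8] at this
    have : (0:ℝ) < 8 ^ l := by positivity
    linarith
  classical
  set m := Nat.find hex with hm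
  have hm1 : 8 ^ l ≤ psi m := Nat.find_spec hex
  have hm0 : m ≠ 0 := by
    intro h
    rw [h] at hm1
    have : psi ((0:ℕ) : ℤ) = 0 := psi_zero
    rw [this] at hm1
    have : (0:ℝ) < 8 ^ l := by positivity
    linarith
  obtain ⟨m', hm'⟩ := Nat.exists_eq_succ_of_ne_zero hm0
  have hm2 : psi m' < 8 ^ l := by
    have := Nat.find_min hex (m := m') (by omega)
    push Not at this
    exact this
  refine ⟨m, ?_⟩
  intro i hi
  set q := Real.sqrt ((8:ℝ) ^ l) with hq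
  have hp : (0:ℝ) < 8 ^ l := by positivity
  have hq0 : 0 < q := Real.sqrt_pos.2 hp
  have hq2 : q ^ 2 = 8 ^ l := Real.sq_sqrt hp.le
  have a1 : q ≤ ‖bb m‖ := by
    have : q ^ 2 ≤ ‖bb m‖ ^ 2 := by rw [hq2]; exact hm1
    exact (sq_le_sq₀ hq0.le (norm_nonneg _)).1 this
  have a2 : ‖bb m'‖ < q := by
    have : ‖bb m'‖ ^ 2 < q ^ 2 := by rw [hq2]; exact hm2
    exact (sq_lt_sq₀ (norm_nonneg _) hq0.le).1 this
  have a3 : |‖bb m‖ - ‖bb m'‖| ≤ ‖bb 1‖ := by
    have := norm_bb_diff m' 1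
    rw [hm']; push_cast; exact this
  have a4 : |‖bb ((m + i : ℕ) : ℤ)‖ - ‖bb m‖| ≤ ‖bb i‖ := by
    have := norm_bb_diff m i
    push_cast; exact this
  have a5 := hS i (by omega)
  have a6 : |‖bb ((m + i : ℕ) : ℤ)‖ - q| ≤ S := by
    rw [abs_le] at a3 a4 ⊢
    constructor <;> linarith [a3.1, a3.2, a4.1, a4.2]
  -- conclude
  have h0 : Th (q ^ 2) = 0 := by rw [hq2]; exact Th_pow l
  have h1 := Th_lip (show 0 ≤ q ^ 2 by positivity)
    (show 0 ≤ ‖bb ((m + i : ℕ) : ℤ)‖ ^ 2 by positivity)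
  rw [h0, zero_sub, abs_neg] at h1
  set c := ‖bb ((m + i : ℕ) : ℤ)‖ with hc
  have hc0 : 0 ≤ c := norm_nonneg _
  have h2 : |q ^ 2 - c ^ 2| ≤ S * (2 * q + S) := by
    have e : q ^ 2 - c ^ 2 = -((c - q) * (c + q)) := by ring
    rw [e, abs_neg, abs_mul]
    have h3 : |c + q| ≤ 2 * q + S := by
      rw [abs_of_nonneg (by linarith)]
      have := abs_le.1 a6
      linarith [this.2]
    gcongr
  have h3 : |q ^ 2 - c ^ 2| / (1 + q ^ 2) ≤ S * (2 * q + S) / 8 ^ l := by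
    rw [hq2]
    rw [hq2] at h2
    apply div_le_div₀ (by positivity) h2 hp (by linarith)
  have h4 : xs (m + i) ≤ |Th (c ^ 2)| := le_abs_self _
  calc xs (m + i) ≤ |Th (c ^ 2)| := h4
    _ ≤ 8 * (|q ^ 2 - c ^ 2| / (1 + q ^ 2)) := h1
    _ ≤ 8 * (S * (2 * q + S) / 8 ^ l) := by gcongr
    _ < eta := hl

/-- Separated traces of orbit points on a finite set of coordinates: polynomial bound. -/
lemma trace_count {eta : ℝ} (heta : 0 < eta) : ∃ C K : ℕ, ∀ (E : Finset ℕ), E.Nonempty →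
    ∀ (α : Type) (P : Finset α) (f : α → ℕ),
    (∀ a ∈ P, ∀ b ∈ P, a ≠ b → ∃ t ∈ E, eta ≤ |xs (f a + t) - xs (f b + t)|) →
    P.card ≤ C * (2 * E.card + 1) ^ K := by
  obtain ⟨C, K, h⟩ := profile_count (H := Hs) heta
  refine ⟨C, K, ?_⟩
  intro E hE α P f hsep
  have : Nonempty E := hE.to_subtype
  have := h E (fun t => bb (-((t : ℕ) : ℤ))) α P (fun a => bb (f a)) ?_
  · simpa using this
  · intro a ha b hb hab
    obtain ⟨t, htE, ht⟩ := hsep a ha b hb hab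
    refine ⟨⟨t, htE⟩, ?_⟩
    simp only
    rw [norm_bb_sub, norm_bb_sub]
    unfold xs psi at ht
    push_cast at ht
    exact ht

end Pool.Agent.N824.NullMeq
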