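import Mathlib
import Pool.Agent.N824.NullC

set_option autoImplicit false

namespace Pool.Agent.N824.NullMeq

open Finset Filter

/-- The ambient product space. -/
def YY : Type := ℕ → unitInterval

noncomputable instance : MetricSpace YY := PiCountable.metricSpace (ι := ℕ) (F := fun _ => unitInterval)

instance : CompactSpace YY := inferInstanceAs (CompactSpace (ℕ → unitInterval))

lemma cont_coord (n : ℕ) : Continuous (fun y : YY => y n) :=
  (continuous_apply n : Continuous (fun y : ℕ → unitInterval => y n))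

lemma cont_of_coord {Z : Type*} [TopologicalSpace Z] {g : Z → YY}
    (h : ∀ n, Continuous (fun z => g z n)) : Continuous g :=
  (continuous_pi h : Continuous (fun z => (g z : ℕ → unitInterval)))

lemma tendsto_of_coord {ι : Type*} {l : Filter ι} {g : ι → YY} {y : YY}
    (h : ∀ n, Tendsto (fun z => g z n) l (nhds (y n))) : Tendsto g l (nhds y) :=
  (tendsto_pi_nhds.2 h : Tendsto (fun z => (g z : ℕ → unitInterval)) l (nhds (y : ℕ → unitInterval)))

lemma YY_dist (x y : YY) : dist x y = ∑' i : ℕ, min ((2:ℝ)⁻¹ ^ i) (dist (x i) (y i)) := rfl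

lemma YY_summable (x y : YY) : Summable (fun i : ℕ => min ((2:ℝ)⁻¹ ^ i) (dist (x i) (y i))) :=
  PiCountable.dist_summable (ι := ℕ) (F := fun _ => unitInterval) x y

lemma dist_zero_le (x y : YY) : |(x 0 : ℝ) - y 0| ≤ dist x y := by
  have h := PiCountable.min_dist_le_dist_pi (ι := ℕ) (F := fun _ => unitInterval) x y 0
  have h1 : dist (x 0) (y 0) = |(x 0 : ℝ) - y 0| := rfl
  have h2 : min ((2:ℝ)⁻¹ ^ (Encodable.encode (0:ℕ))) (dist (x 0) (y 0)) = |(x 0 : ℝ) - y 0| := by
    rw [h1]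
    have : Encodable.encode (0:ℕ) = 0 := rfl
    rw [this, pow_zero, min_eq_right]
    rw [abs_le]
    have := (x 0).2.1; have := (x 0).2.2; have := (y 0).2.1; have := (y 0).2.2
    constructor <;> linarith
  rw [h2] at h
  exact h

/-- far points differ in some early coordinate -/
lemma exists_coord {ep : ℝ} (hep : 0 < ep) : ∃ M : ℕ, ∃ eta : ℝ, 0 < eta ∧ ∀ x y : YY,
    ep ≤ dist x y → ∃ i < M, eta ≤ |(x i : ℝ) - y i| := by
  obtain ⟨M, hM⟩ : ∃ M : ℕ, ((2:ℝ)⁻¹) ^ M * 2 < ep / 2 := by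
    obtain ⟨M, hM⟩ := exists_pow_lt_of_lt_one (show 0 < ep / 4 by positivity)
      (show (2:ℝ)⁻¹ < 1 by norm_num)
    exact ⟨M, by linarith⟩
  refine ⟨M, ep / (2 * (M + 1)), by positivity, ?_⟩
  intro x y hxy
  by_contra hcon
  push Not at hcon
  have hs := YY_summable x y
  have e := hs.sum_add_tsum_nat_add M
  have h1 : ∑ i ∈ Finset.range M, min ((2:ℝ)⁻¹ ^ i) (dist (x i) (y i)) ≤ M * (ep / (2 * (M + 1))) := by
    have : ∑ i ∈ Finset.range M, min ((2:ℝ)⁻¹ ^ i) (dist (x i) (y i)) ≤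
        ∑ i ∈ Finset.range M, (ep / (2 * (M + 1))) := by
      apply Finset.sum_le_sum
      intro i hi
      have := hcon i (Finset.mem_range.1 hi)
      exact (min_le_right _ _).trans this.le
    rwa [Finset.sum_const, Finset.card_range, nsmul_eq_mul] at this
  have h2 : ∑' i : ℕ, min ((2:ℝ)⁻¹ ^ (i + M)) (dist (x (i + M)) (y (i + M))) ≤ ((2:ℝ)⁻¹) ^ M * 2 := by
    have hg : HasSum (fun i : ℕ => ((2:ℝ)⁻¹) ^ M * ((2:ℝ)⁻¹) ^ i) (((2:ℝ)⁻¹) ^ M * 2) := by
      have := hasSum_geometric_two.mul_left (((2:ℝ)⁻¹) ^ M)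
      simpa [one_div] using this
    rw [← hg.tsum_eq]
    have hs2 : Summable (fun i : ℕ => min ((2:ℝ)⁻¹ ^ (i + M)) (dist (x (i + M)) (y (i + M)))) :=
      (summable_nat_add_iff (f := fun i : ℕ => min ((2:ℝ)⁻¹ ^ i) (dist (x i) (y i))) M).2 hs
    refine Summable.tsum_le_tsum (fun i => ?_) hs2 hg.summable
    refine (min_le_left _ _).trans (le_of_eq ?_)
    rw [pow_add]; ring
  rw [← YY_dist] at e
  have h3 : (M:ℝ) * (ep / (2 * (M + 1))) ≤ ep / 2 := by
    rw [← mul_div_assoc, div_le_div_iff₀ (by positivity) (by norm_num)]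
    nlinarith
  linarith

/-- The shift. -/
def sh (y : YY) : YY := fun n => y (n + 1)

lemma cont_sh : Continuous sh := cont_of_coord (fun n => cont_coord (n + 1))

/-- orbit points -/
noncomputable def orb (m : ℕ) : YY := fun n => ⟨xs (m + n), xs_nonneg _, xs_le_one _⟩

lemma sh_orb (m : ℕ) : sh (orb m) = orb (m + 1) := by
  funext n
  apply Subtype.ext
  show xs (m + (n + 1)) = xs (m + 1 + n)
  congr 1; ring

/-- The closed shift-invariant set. -/
def SS : Set YY := closure (Set.range orb)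

lemma sh_maps : Set.MapsTo sh SS SS := by
  unfold SS
  have h : Set.MapsTo sh (Set.range orb) (Set.range orb) := by
    rintro _ ⟨m, rfl⟩
    exact ⟨m + 1, (sh_orb m).symm⟩
  exact h.closure cont_sh

/-- The space. -/
def XX : Type := {y : YY // y ∈ SS}

noncomputable instance : MetricSpace XX := inferInstanceAs (MetricSpace {y : YY // y ∈ SS})

instance : CompactSpace XX :=
  isCompact_iff_compactSpace.1 (show IsCompact SS from isClosed_closure.isCompact)

/-- The map. -/
def TT (x : XX) : XX := ⟨sh x.1, sh_maps x.2⟩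

lemma cont_TT : Continuous TT :=
  Continuous.subtype_mk (cont_sh.comp continuous_subtype_val) _

lemma XX_dist (x y : XX) : dist x y = dist x.1 y.1 := rfl

lemma TT_iter (k : ℕ) (x : XX) (n : ℕ) : (TT^[k] x).1 n = x.1 (n + k) := by
  induction k generalizing x n with
  | zero => rfl
  | succ k ih =>
    rw [Function.iterate_succ_apply', show (TT (TT^[k] x)).1 n = (TT^[k] x).1 (n + 1) from rfl, ih,
      show n + 1 + k = n + (k + 1) by ring]

/-- orbit points in the space -/
noncomputable def pt (m : ℕ) : XX := ⟨orb m, subset_closure ⟨m, rfl⟩⟩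

lemma TT_iter_pt (k m : ℕ) : TT^[k] (pt m) = pt (m + k) := by
  apply Subtype.ext
  funext n
  rw [TT_iter]
  apply Subtype.ext
  show xs (m + (n + k)) = xs (m + k + n)
  congr 1; ring

lemma dense_pt {U : Set XX} (hU : IsOpen U) (hne : U.Nonempty) : ∃ m, pt m ∈ U := by
  obtain ⟨x, hx⟩ := hne
  obtain ⟨V, hV, rfl⟩ := isOpen_induced_iff.1 hU
  have hx2 : x.1 ∈ closure (Set.range orb) := x.2
  rw [mem_closure_iff] at hx2
  obtain ⟨y, hyV, ⟨m, rfl⟩⟩ := hx2 V hV hx
  exact ⟨m, hyV⟩

lemma tendsto_pt_of {m : ℕ} {g : ℕ → ℕ} (h : ∀ n, Tendsto (fun i => xs (g i + n)) atTop (nhds (xs (m + n)))) :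
    Tendsto (fun i => pt (g i)) atTop (nhds (pt m)) := by
  have h1 : Tendsto (fun i => orb (g i)) atTop (nhds (orb m)) := by
    apply tendsto_of_coord
    intro n
    exact tendsto_subtype_rng.2 (h n)
  exact tendsto_subtype_rng.2 h1

theorem transitive (U V : Set XX) (hU : IsOpen U) (hV : IsOpen V) (hUn : U.Nonempty)
    (hVn : V.Nonempty) : ∃ n : ℕ, 1 ≤ n ∧ (V ∩ TT^[n] ⁻¹' U).Nonempty := by
  obtain ⟨a, ha⟩ := dense_pt hU hUn
  obtain ⟨b, hb⟩ := dense_pt hV hVn
  have hrec : ∀ i : ℕ, ∃ L, (b + i) < L ∧ ∀ n, |xs (n + L) - xs n| < 1 / ((i:ℝ) + 1) :=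
    fun i => xs_rec (by positivity) (b + i)
  choose L hL1 hL2 using hrec
  have ht : Tendsto (fun i => pt (a + L i)) atTop (nhds (pt a)) := by
    apply tendsto_pt_of
    intro n
    rw [tendsto_iff_dist_tendsto_zero]
    refine squeeze_zero (fun _ => dist_nonneg) (fun i => ?_) tendsto_one_div_add_atTop_nhds_zero_nat
    rw [Real.dist_eq]
    have := hL2 i (a + n)
    have e : a + L i + n = a + n + L i := by ring
    rw [e]; exact this.le
  obtain ⟨i, hi⟩ := (ht.eventually (hU.mem_nhds ha)).exists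
  refine ⟨a + L i - b, ?_, pt b, hb, ?_⟩
  · have := hL1 i; omega
  · show TT^[a + L i - b] (pt b) ∈ U
    rw [TT_iter_pt]
    have : b + (a + L i - b) = a + L i := by have := hL1 i; omega
    rw [this]; exact hi

theorem null_sep (a : ℕ → ℕ) (ep : ℝ) (hep : 0 < ep) (de : ℝ) (hde : 0 < de) :
    ∀ᶠ n in atTop, ∀ F : Finset XX,
          (∀ x ∈ F, ∀ y ∈ F, x ≠ y → ∃ i < n, ep ≤ dist (TT^[a i] x) (TT^[a i] y)) →
          (F.card : ℝ) ≤ Real.exp (de * n) := by
  classical
  obtain ⟨M, eta, heta, hM⟩ := exists_coord hep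
  obtain ⟨C, K, hCK⟩ := trace_count (show 0 < eta / 2 by positivity)
  have hbound : ∀ n : ℕ, 1 ≤ n → ∀ F : Finset XX,
          (∀ x ∈ F, ∀ y ∈ F, x ≠ y → ∃ i < n, ep ≤ dist (TT^[a i] x) (TT^[a i] y)) →
          F.card ≤ C * (2 * (n * (M + 1)) + 1) ^ K := by
    intro n hn F hF
    set E : Finset ℕ := (Finset.range n ×ˢ Finset.range (M + 1)).image (fun p => p.2 + a p.1) with hE
    have hEc : E.card ≤ n * (M + 1) := by
      refine Finset.card_image_le.trans ?_
      rw [Finset.card_product, Finset.card_range, Finset.card_range]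
    have hEn : E.Nonempty := by
      refine Finset.Nonempty.image ?_ _
      refine ⟨(0, 0), ?_⟩
      simp only [Finset.mem_product, Finset.mem_range]
      omega
    -- approximate each point by an orbit point on E
    have happ : ∀ x : XX, ∃ m : ℕ, ∀ t ∈ E, |xs (m + t) - (x.1 t : ℝ)| < eta / 4 := by
      intro x
      have hopen : IsOpen {z : XX | ∀ t ∈ E, |(z.1 t : ℝ) - (x.1 t : ℝ)| < eta / 4} := by
        have : {z : XX | ∀ t ∈ E, |(z.1 t : ℝ) - (x.1 t : ℝ)| < eta / 4} =
            ⋂ t ∈ E, {z : XX | |(z.1 t : ℝ) - (x.1 t : ℝ)| < eta / 4} := by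
          ext z; simp
        rw [this]
        apply isOpen_biInter_finset
        intro t _
        have hc : Continuous (fun z : XX => |(z.1 t : ℝ) - (x.1 t : ℝ)|) := by
          have h1 : Continuous (fun z : XX => ((z.1 t : unitInterval) : ℝ)) :=
            continuous_subtype_val.comp ((cont_coord t).comp continuous_subtype_val)
          exact (h1.sub continuous_const).abs
        exact isOpen_lt hc continuous_const
      have hne : ({z : XX | ∀ t ∈ E, |(z.1 t : ℝ) - (x.1 t : ℝ)| < eta / 4}).Nonempty :=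
        ⟨x, by intro t _; rw [sub_self, abs_zero]; positivity⟩
      obtain ⟨m, hm⟩ := dense_pt hopen hne
      exact ⟨m, hm⟩
    choose g hg using happ
    have h1 := hCK E hEn XX F g ?_
    · refine h1.trans ?_
      gcongr
    · intro x hx y hy hxy
      obtain ⟨i, hi, hd⟩ := hF x hx y hy hxy
      rw [XX_dist] at hd
      obtain ⟨j, hj, hj2⟩ := hM _ _ hd
      rw [TT_iter, TT_iter] at hj2
      have htE : j + a i ∈ E := by
        rw [hE, Finset.mem_image]
        exact ⟨(i, j), by simp only [Finset.mem_product, Finset.mem_range]; omega, rfl⟩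
      refine ⟨j + a i, htE, ?_⟩
      have g1 := hg x _ htE
      have g2 := hg y _ htE
      rw [abs_lt] at g1 g2
      rcases le_total 0 ((x.1 (j + a i) : ℝ) - y.1 (j + a i)) with h | h
      · rw [abs_of_nonneg h] at hj2
        refine le_trans ?_ (le_abs_self _)
        linarith [g1.1, g1.2, g2.1, g2.2]
      · rw [abs_of_nonpos h] at hj2
        refine le_trans ?_ (neg_le_abs _)
        linarith [g1.1, g1.2, g2.1, g2.2]
  -- polynomial versus exponential
  have hpoly : ∀ᶠ n : ℕ in atTop, ((C * (2 * (n * (M + 1)) + 1) ^ K : ℕ) : ℝ) ≤ Real.exp (de * n) := by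
    have hlit : Tendsto (fun x : ℝ => Real.exp (de * x) / x ^ K) atTop atTop := by
      have h0 := Real.tendsto_exp_div_pow_atTop K
      have h1 : Tendsto (fun x : ℝ => de * x) atTop atTop := tendsto_id.const_mul_atTop hde
      have h2 := h0.comp h1
      have h3 : Tendsto (fun x : ℝ => de ^ K * (Real.exp (de * x) / (de * x) ^ K)) atTop atTop :=
        h2.const_mul_atTop (by positivity)
      refine h3.congr' ?_
      filter_upwards [eventually_gt_atTop 0] with x hx
      rw [mul_pow]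
      field_simp
    have hlit2 := hlit.comp (tendsto_natCast_atTop_atTop (R := ℝ))
    filter_upwards [hlit2.eventually_ge_atTop ((C:ℝ) * (2 * (M + 1) + 1) ^ K), eventually_ge_atTop 1]
      with n hn hn1
    simp only [Function.comp] at hn
    have hnpos : (0:ℝ) < n := by exact_mod_cast hn1
    rw [le_div_iff₀ (by positivity)] at hn
    refine le_trans ?_ hn
    push_cast
    rw [mul_assoc, ← mul_pow]
    have : (2 * ((n:ℝ) * (M + 1)) + 1) ≤ (2 * (M + 1) + 1) * n := by
      have : (1:ℝ) ≤ n := by exact_mod_cast hn1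
      nlinarith
    gcongr
  filter_upwards [hpoly, eventually_ge_atTop 1] with n hn hn1 F hF
  have := hbound n hn1 F hF
  calc (F.card : ℝ) ≤ ((C * (2 * (n * (M + 1)) + 1) ^ K : ℕ) : ℝ) := by exact_mod_cast this
    _ ≤ _ := hn

/-- the constant zero sequence -/
def zz : YY := fun _ => 0

lemma near_zz {de : ℝ} (hde : 0 < de) : ∃ m, dist (orb m) zz < de := by
  obtain ⟨M, eta, heta, hM⟩ := exists_coord hde
  obtain ⟨m, hm⟩ := xs_near_zero heta M
  refine ⟨m, ?_⟩
  by_contra hcon
  push Not at hcon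
  obtain ⟨i, hi, h2⟩ := hM _ _ hcon
  have h3 := hm i hi
  have h4 : |((orb m i : unitInterval) : ℝ) - ((zz i : unitInterval) : ℝ)| = xs (m + i) := by
    show |xs (m + i) - 0| = xs (m + i)
    rw [sub_zero, abs_of_nonneg (xs_nonneg _)]
  linarith

lemma zz_mem : zz ∈ SS := by
  unfold SS
  rw [Metric.mem_closure_iff]
  intro ep hep
  obtain ⟨m, hm⟩ := near_zz hep
  exact ⟨orb m, ⟨m, rfl⟩, by rwa [dist_comm]⟩

/-- the fixed point -/
def zp : XX := ⟨zz, zz_mem⟩

lemma TT_iter_zp (k : ℕ) : TT^[k] zp = zp := by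
  apply Subtype.ext
  funext n
  rw [TT_iter]; rfl

theorem not_meq : ¬ (∀ ε : ℝ, 0 < ε → ∃ δ : ℝ, 0 < δ ∧ ∀ x y : XX, dist x y < δ →
        ∀ᶠ n in atTop,
          (∑ i ∈ Finset.range n, dist (TT^[i] x) (TT^[i] y)) / (n : ℝ) < ε) := by
  intro h
  obtain ⟨de, hde, h⟩ := h (1/4) (by norm_num)
  obtain ⟨m, hm⟩ := near_zz hde
  have h1 := h (pt m) zp hm
  obtain ⟨N, hN⟩ := eventually_atTop.1 h1
  -- choose k large
  obtain ⟨k, hk1, hk2⟩ : ∃ k, 2 ≤ k ∧ N + 4 * m + 1 ≤ qq k := by
    refine ⟨N + 4 * m + 2, by omega, ?_⟩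
    unfold qq
    set l := N + 4 * m + 2 with hl
    have : l < 4 ^ l := Nat.lt_pow_self (by norm_num)
    have h5 : 4 ^ l ≤ 4 ^ (l ^ 2) := Nat.pow_le_pow_right (by norm_num) (Nat.le_self_pow (by norm_num) l)
    omega
  have h2 := hN (qq k) (by omega)
  have h3 := sum_xs hk1
  have h4 : ∑ i ∈ Finset.range (qq k), xs (m + i) ≤
      ∑ i ∈ Finset.range (qq k), dist (TT^[i] (pt m)) (TT^[i] zp) := by
    apply Finset.sum_le_sum
    intro i _
    rw [TT_iter_pt, TT_iter_zp, XX_dist]
    have := dist_zero_le (orb (m + i)) zz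
    have h5 : |((orb (m + i) 0 : unitInterval) : ℝ) - ((zz 0 : unitInterval) : ℝ)| = xs (m + i) := by
      show |xs (m + i + 0) - 0| = xs (m + i)
      rw [sub_zero, add_zero, abs_of_nonneg (xs_nonneg _)]
    rw [h5] at this
    exact this
  have h5 : ∑ i ∈ Finset.range (qq k), xs i - m ≤ ∑ i ∈ Finset.range (qq k), xs (m + i) := by
    have e1 : ∑ i ∈ Finset.range m, xs i + ∑ i ∈ Finset.range (qq k), xs (m + i) =
        ∑ i ∈ Finset.range (m + qq k), xs i := (Finset.sum_range_add xs m (qq k)).symm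
    have e2 : ∑ i ∈ Finset.range (qq k), xs i ≤ ∑ i ∈ Finset.range (m + qq k), xs i :=
      Finset.sum_le_sum_of_subset_of_nonneg (Finset.range_mono (by omega)) (fun n _ _ => xs_nonneg n)
    have e3 : ∑ i ∈ Finset.range m, xs i ≤ m := by
      have : ∑ i ∈ Finset.range m, xs i ≤ ∑ i ∈ Finset.range m, (1:ℝ) :=
        Finset.sum_le_sum (fun i _ => xs_le_one i)
      simpa using this
    linarith
  have hq : (0:ℝ) < qq k := by
    have : 0 < qq k := by omega
    exact_mod_cast this
  rw [div_lt_iff₀ hq] at h2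
  have h6 : 4 * (m:ℝ) ≤ qq k := by
    have : 4 * m ≤ qq k := by omega
    exact_mod_cast this
  linarith

end Pool.Agent.N824.NullMeq
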