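import Mathlib
import Pool.Agent.N824.CT.Fib

/-!
# Branched coverings of the complex projective plane from coarse maps

Let `N` be a closed manifold of dimension `n`, smoothly embedded in `ℝᵏ` by `ι`, and `M` a closed
manifold of dimension `m`; in the application `m = n = 4` and `N` is the complex projective plane.
Let `Z` be a closed subset of `M` and `F₀ : M → N` a smooth map, of which only the germ along `Z`
matters; for instance `Z` is a surface and `F₀` is a branched covering near `Z`, or `Z` is empty.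

The theorem characterizes when there is a smooth map `F : M → N`, equal to `F₀` near `Z` and
submersive (for `m = n`: a local diffeomorphism) outside `Z`: this is the case if and only if there
are, for arbitrarily small scales `r` (all `r` in a set `S` accumulating at `0`), coarse maps
`f r : M → N` of this kind, which are equal to `F₀` on an open set `U` containing `Z`, with `F₀`
submersive on `U \ Z`. The maps `f r` need not be continuous, they are unrelated for different `r`,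
and nothing is assumed about `f r` at scales different from `r`. Near a point `x` outside `U` there
is a smooth parametrization `A` of `M`, `κ`-bi-Lipschitz for some function `d(x, y)`, such that for
all `p` near `0` the map `ι ∘ f r ∘ A` is, on the ball of radius `κ² r` about `p`, *in the mean*
within `δ r` of an affine map with linear part `L`, where `(1 + ‖L‖) r ≤ δ τ(r)` and
`(‖L‖ + δ) r ≤ τ(r)` with `τ(r) → 0`, and `L` has rank at least `n` with a margin: there is a
subspace `H` of `ℝᵐ` of dimension `n` with `C κ^(2m+2) δ ‖v‖ < ‖L v‖` for all `v ≠ 0` in `H`. Here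
`L`, `δ` and `H` depend on `p` and `r` in any way and `C` is any sufficiently large constant (it
depends on `m` and `ι`).

For `m = n`, `Z = ∅` and `N` simply connected (the complex projective plane) the map `F` is a
diffeomorphism of each component of `M` to `N`.
-/

set_option autoImplicit false

open Set Filter Topology Metric MeasureTheory Function
open scoped Manifold ContDiff

noncomputable section

namespace Pool.Agent.Results.MP_dbd540_gt.CoarseBranchedCoverings

/-- `ℝᵐ` -/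
abbrev R (m : ℕ) := EuclideanSpace ℝ (Fin m)

/-- Lebesgue measure on `ℝᵐ` -/
def vol (m : ℕ) : Measure (R m) := volume

/-! In the following definitions `V = ℝᵐ` is the model space of `M`, `T = ℝⁿ` the model space of
`N`, and `W = ℝᵏ`. -/

section

variable {V W : Type} [NormedAddCommGroup V] [NormedSpace ℝ V] [NormedAddCommGroup W]
  [NormedSpace ℝ W] {M : Type} [TopologicalSpace M] [ChartedSpace V M]

/-- `A` is a smooth parametrization near `x = A 0`, which is `κ`-bi-Lipschitz for `d` on the ball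
of radius `ρ`. -/
def Param (d : M → M → ℝ) (A : V → M) (κ ρ : ℝ) (x : M) : Prop :=
  A 0 = x ∧ IsLocalDiffeomorphAt 𝓘(ℝ, V) 𝓘(ℝ, V) ∞ A 0 ∧ 1 ≤ κ ∧ 0 < ρ ∧
    ∀ p q : V, ‖p‖ < ρ → ‖q‖ < ρ →
      d (A p) (A q) ≤ κ * ‖p - q‖ ∧ ‖p - q‖ ≤ κ * d (A p) (A q)

/-- `h` is integrable on the ball of radius `b` about `p` and its distance to an affine map with
linear part `L` has integral at most `c` over this ball. -/
def AffineInMean [MeasurableSpace V] (μ : Measure V) (h : V → W) (p : V) (b c : ℝ)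
    (L : V →L[ℝ] W) : Prop :=
  IntegrableOn h (closedBall p b) μ ∧ ∃ w : W,
    ∫ q in closedBall p b, ‖h q - w - L (q - p)‖ ∂μ ≤ c

/-- `L` has rank at least `n`, with the margin `b` -/
def RankMargin (n : ℕ) (b : ℝ) (L : V →L[ℝ] W) : Prop :=
  ∃ H : Submodule ℝ V, Module.finrank ℝ H = n ∧ ∀ v ∈ H, v ≠ 0 → b * ‖v‖ < ‖L v‖

/-- the maps `f r` are coarsely submersive (of rank `n`) at `x`, each one at its scale `r ∈ S`;
`m` is the dimension of `M` -/
def CoarseAt [MeasurableSpace V] (m n : ℕ) (μ : Measure V) (C : ℝ) (d : M → M → ℝ) (S : Set ℝ)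
    (f : ℝ → M → W) (x : M) : Prop :=
  ∃ (A : V → M) (κ ρ : ℝ) (τ : ℝ → ℝ), Param d A κ ρ x ∧ Tendsto τ (𝓝[>] 0) (𝓝 0) ∧
    ∀ p, ‖p‖ < ρ → ∀ r ∈ S, 0 < r → r < ρ → ∃ (L : V →L[ℝ] W) (δ : ℝ), 0 ≤ δ ∧
      (1 + ‖L‖) * r ≤ δ * τ r ∧ (‖L‖ + δ) * r ≤ τ r ∧
      AffineInMean μ (fun z => f r (A z)) p (κ ^ 2 * r) (δ * r ^ (m + 1)) L ∧
      RankMargin n (C * κ ^ (2 * m + 2) * δ) L

variable {N : Type} [TopologicalSpace N] (V) (T : Type) [NormedAddCommGroup T] [NormedSpace ℝ T]
  [ChartedSpace T N]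

/-- smooth maps -/
def Smooth (F : M → N) : Prop := ContMDiff 𝓘(ℝ, V) 𝓘(ℝ, T) ∞ F

/-- the differential of `F` at `x` is surjective -/
def SubmersiveAt (F : M → N) (x : M) : Prop := Surjective (mfderiv 𝓘(ℝ, V) 𝓘(ℝ, T) F x)

/-- `ι` is a smooth injective immersion (its differential at `y` is injective, in a smooth
parametrization `A` near `y = A 0`). -/
def SmoothEmb (ι : N → W) : Prop :=
  ContMDiff 𝓘(ℝ, T) 𝓘(ℝ, W) ∞ ι ∧ Injective ι ∧ ∀ y, ∃ A : T → N, A 0 = y ∧
    IsLocalDiffeomorphAt 𝓘(ℝ, T) 𝓘(ℝ, T) ∞ A 0 ∧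
    ∀ v : T, fderiv ℝ (fun z => ι (A z)) 0 v = 0 → v = 0

/-- there is a smooth map to `N` equal to `F₀` near `Z` and submersive outside `Z` -/
def HasFibration (Z : Set M) (F₀ : M → N) : Prop :=
  ∃ F : M → N, Smooth V T F ∧ (∃ O : Set M, IsOpen O ∧ Z ⊆ O ∧ ∀ x ∈ O, F x = F₀ x) ∧
    ∀ x, x ∉ Z → SubmersiveAt V T F x

/-- there are, for scales `r` accumulating at `0`, maps `f r` to `N` equal to `F₀` on an open set
`U` containing `Z`, where `F₀` is submersive outside `Z`, and coarsely submersive outside `U` (as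
maps to `W`, by `ι`) -/
def HasCoarseFibration [MeasurableSpace V] (m n : ℕ) (μ : Measure V) (C : ℝ) (ι : N → W)
    (Z : Set M) (F₀ : M → N) : Prop :=
  ∃ (U : Set M) (d : M → M → ℝ) (S : Set ℝ) (f : ℝ → M → N), IsOpen U ∧ Z ⊆ U ∧
    (∀ x ∈ U, x ∉ Z → SubmersiveAt V T F₀ x) ∧ (0 : ℝ) ∈ closure (S ∩ Ioi 0) ∧
    (∀ r ∈ S, ∀ x ∈ U, f r x = F₀ x) ∧
    ∀ x, x ∉ U → CoarseAt m n μ C d S (fun r x => ι (f r x)) x

end

theorem result (m n k : ℕ) (N : Type) [TopologicalSpace N] [CompactSpace N] [T2Space N]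
    [Nonempty N] [ChartedSpace (R n) N] [IsManifold 𝓘(ℝ, R n) ∞ N] (ι : N → R k)
    (_ : SmoothEmb (R n) ι) :
    ∃ C₀ : ℝ, ∀ C : ℝ, C₀ ≤ C → ∀ (M : Type) [TopologicalSpace M] [CompactSpace M] [T2Space M]
      [ChartedSpace (R m) M] [IsManifold 𝓘(ℝ, R m) ∞ M] (Z : Set M) (_ : IsClosed Z)
      (F₀ : M → N) (_ : Smooth (R m) (R n) F₀),
      HasFibration (R m) (R n) Z F₀ ↔ HasCoarseFibration (R m) (R n) m n (vol m) C ι Z F₀ := by
  rename_i hι
  obtain ⟨C₀, hC₀⟩ := Pool.Agent.N824.CT.mainSub m n hι.1 hι.2.1 hι.2.2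
  refine ⟨C₀, fun C hC M _ _ _ _ _ Z hZ F₀ hF₀ => ?_⟩
  refine (hC₀ C hC M Z hZ F₀ hF₀).trans ⟨?_, ?_⟩
  · rintro ⟨U, d, S, f, h1, h2, h3, h4, h5, h6⟩
    refine ⟨U, d, S, f, h1, h2, h3, h4, h5, fun x hx => ?_⟩
    obtain ⟨A, κ, ρ, τ, k1, k2, k3, k4, k5, k6, k7⟩ := h6 x hx
    exact ⟨A, κ, ρ, τ, ⟨k1, k2, k3, k4, k6⟩, k5, k7⟩
  · rintro ⟨U, d, S, f, h1, h2, h3, h4, h5, h6⟩
    refine ⟨U, d, S, f, h1, h2, h3, h4, h5, fun x hx => ?_⟩
    obtain ⟨A, κ, ρ, τ, ⟨k1, k2, k3, k4, k6⟩, k5, k7⟩ := h6 x hx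
    exact ⟨A, κ, ρ, τ, k1, k2, k3, k4, k5, k6, k7⟩

end Pool.Agent.Results.MP_dbd540_gt.CoarseBranchedCoverings
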