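import Mathlib

/-!
# Over-recurrent sets in mixing systems
-/

set_option autoImplicit false
set_option linter.unusedSectionVars false

open MeasureTheory Filter Topology Set

namespace Pool.Agent.N824.OR

variable {X : Type*} [MeasurableSpace X] {μ : Measure X} [IsProbabilityMeasure μ] {T : X → X}

/-- mixing, with real valued measures -/
def Mix (μ : Measure X) (T : X → X) : Prop :=
  ∀ A B : Set X, MeasurableSet A → MeasurableSet B →
    Tendsto (fun n : ℕ => μ.real (A ∩ T^[n] ⁻¹' B)) atTop (𝓝 (μ.real A * μ.real B))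

lemma real_preimage (hT : MeasurePreserving T μ μ) {A : Set X} (hA : MeasurableSet A) (n : ℕ) :
    μ.real (T^[n] ⁻¹' A) = μ.real A := by
  unfold Measure.real
  rw [(hT.iterate n).measure_preimage hA.nullMeasurableSet]

/-- sets of small positive measure -/
lemma exists_small (hm : Mix μ T) (hT : MeasurePreserving T μ μ) {A : Set X} (hA : MeasurableSet A)
    (h0 : 0 < μ.real A) (h1 : μ.real A < 1) {ε : ℝ} (hε : 0 < ε) :
    ∃ B : Set X, MeasurableSet B ∧ 0 < μ.real B ∧ μ.real B < ε := by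
  set r : ℝ := (1 + μ.real A) / 2 with hr
  have hr1 : r < 1 := by rw [hr]; linarith
  have hr0 : 0 < r := by rw [hr]; linarith
  have key : ∀ k : ℕ, ∃ B : Set X, MeasurableSet B ∧ 0 < μ.real B ∧ μ.real B ≤ r ^ k := by
    intro k
    induction k with
    | zero => exact ⟨A, hA, h0, by simp⟩
    | succ k ih =>
      obtain ⟨B, hB, hB0, hB1⟩ := ih
      have ht := hm B A hB hA
      have h2 : 0 < μ.real B * μ.real A := mul_pos hB0 h0
      have h3 : μ.real B * μ.real A < μ.real B * r := by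
        apply mul_lt_mul_of_pos_left _ hB0
        rw [hr]; linarith
      obtain ⟨n, hn1, hn2⟩ := ((ht.eventually_const_lt h2).and (ht.eventually_lt_const h3)).exists
      refine ⟨B ∩ T^[n] ⁻¹' A, hB.inter ((hT.iterate n).measurable hA), hn1, ?_⟩
      calc μ.real (B ∩ T^[n] ⁻¹' A) ≤ μ.real B * r := hn2.le
        _ ≤ r ^ k * r := by gcongr
        _ = r ^ (k + 1) := by ring
  obtain ⟨k, hk⟩ := exists_pow_lt_of_lt_one hε hr1
  obtain ⟨B, hB, hB0, hB1⟩ := key k
  exact ⟨B, hB, hB0, hB1.trans_lt hk⟩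

/-- the union of the first `L` preimages of `B` -/
def U (T : X → X) (B : Set X) (L : ℕ) : Set X := ⋃ i ∈ Finset.range L, T^[i] ⁻¹' B

lemma mem_U {B : Set X} {L : ℕ} {x : X} : x ∈ U T B L ↔ ∃ i < L, T^[i] x ∈ B := by
  simp [U]

lemma U_meas (hT : MeasurePreserving T μ μ) {B : Set X} (hB : MeasurableSet B) (L : ℕ) :
    MeasurableSet (U T B L) :=
  Finset.measurableSet_biUnion _ fun i _ => (hT.iterate i).measurable hB

lemma U_full (hm : Mix μ T) (hT : MeasurePreserving T μ μ) {B : Set X} (hB : MeasurableSet B)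
    (h0 : 0 < μ.real B) : Tendsto (fun L => μ.real (U T B L)) atTop (𝓝 1) := by
  -- the union of all preimages
  set V : Set X := ⋃ i : ℕ, T^[i] ⁻¹' B with hV
  have hVm : MeasurableSet V := MeasurableSet.iUnion fun i => (hT.iterate i).measurable hB
  have hmono : Monotone (U T B) := by
    intro a b hab x hx
    rw [mem_U] at hx ⊢
    obtain ⟨i, hi, hx⟩ := hx
    exact ⟨i, hi.trans_le hab, hx⟩
  have hUV : (⋃ L, U T B L) = V := by
    ext x
    simp only [mem_iUnion, mem_U, hV, mem_preimage]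
    constructor
    · rintro ⟨L, i, _, hx⟩; exact ⟨i, hx⟩
    · rintro ⟨i, hx⟩; exact ⟨i + 1, i, Nat.lt_succ_self i, hx⟩
  have hD : μ.real Vᶜ = 0 := by
    have h1 : ∀ n : ℕ, μ.real (B ∩ T^[n] ⁻¹' Vᶜ) = 0 := by
      intro n
      have hsub : Vᶜ ⊆ T^[n] ⁻¹' Vᶜ := by
        intro x hx
        simp only [hV, mem_compl_iff, mem_iUnion, mem_preimage, not_exists] at hx ⊢
        intro i
        rw [← Function.iterate_add_apply]
        exact hx (i + n)
      have h2 : μ.real (T^[n] ⁻¹' Vᶜ \ Vᶜ) = 0 := by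
        rw [measureReal_sdiff hsub hVm.compl, real_preimage hT hVm.compl, sub_self]
      have h3 : B ∩ T^[n] ⁻¹' Vᶜ ⊆ T^[n] ⁻¹' Vᶜ \ Vᶜ := by
        rintro x ⟨hx1, hx2⟩
        refine ⟨hx2, fun hx3 => hx3 ?_⟩
        rw [hV, mem_iUnion]
        exact ⟨0, hx1⟩
      exact le_antisymm ((measureReal_mono h3).trans h2.le) measureReal_nonneg
    have h4 := hm B Vᶜ hB hVm.compl
    simp only [h1] at h4
    have h5 := tendsto_nhds_unique h4 tendsto_const_nhds
    rcases mul_eq_zero.1 h5 with h | h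
    · exact absurd h h0.ne'
    · exact h
  have hV1 : μ.real V = 1 := by
    have := probReal_compl_eq_one_sub (μ := μ) hVm
    linarith
  have ht : Tendsto (fun L => μ (U T B L)) atTop (𝓝 (μ V)) := by
    rw [← hUV]
    exact tendsto_measure_iUnion_atTop hmono
  have ht2 := (ENNReal.tendsto_toReal (measure_ne_top μ V)).comp ht
  have : (μ V).toReal = 1 := hV1
  rw [this] at ht2
  exact ht2

lemma exists_level (hm : Mix μ T) (hT : MeasurePreserving T μ μ) {A : Set X} (hA : MeasurableSet A)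
    (h0 : 0 < μ.real A) (h1 : μ.real A < 1) {s δ : ℝ} (hs : s < 1) (hδ : 0 < δ) (N : ℕ) :
    ∃ S : Set X, MeasurableSet S ∧ s ≤ μ.real S ∧ (0 < s → μ.real S ≤ s + δ) ∧
      ∀ n ≤ N, μ.real (T^[n] ⁻¹' S \ S) ≤ δ := by
  obtain ⟨B, hB, hB0, hB1⟩ := exists_small hm hT hA h0 h1 (ε := δ / (N + 1)) (by positivity)
  have hfull := U_full hm hT hB hB0
  have hex : ∃ L, s ≤ μ.real (U T B L) := (hfull.eventually_const_le hs).exists
  classical
  set L := Nat.find hex with hL
  have hLs : s ≤ μ.real (U T B L) := Nat.find_spec hex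
  refine ⟨U T B L, U_meas hT hB L, hLs, fun hs0 => ?_, ?_⟩
  · -- upper bound
    have hL0 : L ≠ 0 := by
      intro h
      rw [h] at hLs
      have : U T B 0 = ∅ := by simp [U]
      rw [this] at hLs
      simp at hLs
      linarith
    obtain ⟨M, hM⟩ := Nat.exists_eq_succ_of_ne_zero hL0
    have hlt : μ.real (U T B M) < s := by
      have := Nat.find_min hex (m := M) (by rw [← hL, hM]; exact Nat.lt_succ_self M)
      exact not_le.1 this
    have hsub : U T B L ⊆ U T B M ∪ T^[M] ⁻¹' B := by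
      intro x hx
      rw [mem_U] at hx
      obtain ⟨i, hi, hx⟩ := hx
      rw [hM] at hi
      rcases Nat.lt_succ_iff_lt_or_eq.1 hi with h | h
      · exact Or.inl (mem_U.2 ⟨i, h, hx⟩)
      · right; rw [mem_preimage, ← h]; exact hx
    have h2 : μ.real (U T B L) ≤ μ.real (U T B M) + μ.real B := by
      refine (measureReal_mono hsub).trans ((measureReal_union_le _ _).trans ?_)
      rw [real_preimage hT hB]
    have h3 : μ.real B ≤ δ := by
      refine hB1.le.trans (div_le_self hδ.le ?_)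
      have : (0 : ℝ) ≤ N := Nat.cast_nonneg N
      linarith
    linarith
  · intro n hn
    have hsub : T^[n] ⁻¹' U T B L \ U T B L ⊆ ⋃ i ∈ Finset.range n, T^[L + i] ⁻¹' B := by
      rintro x ⟨hx1, hx2⟩
      rw [mem_preimage, mem_U] at hx1
      obtain ⟨i, hi, hx⟩ := hx1
      rw [← Function.iterate_add_apply] at hx
      have hge : L ≤ i + n := by
        by_contra hcon
        push Not at hcon
        exact hx2 (mem_U.2 ⟨i + n, hcon, hx⟩)
      simp only [mem_iUnion, Finset.mem_range, mem_preimage]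
      refine ⟨i + n - L, by omega, ?_⟩
      rw [Nat.add_sub_cancel' hge]
      exact hx
    refine (measureReal_mono hsub (measure_ne_top μ _)).trans ((measureReal_biUnion_finset_le _ _).trans ?_)
    have : ∀ i ∈ Finset.range n, μ.real (T^[L + i] ⁻¹' B) = μ.real B := fun i _ =>
      real_preimage hT hB _
    rw [Finset.sum_congr rfl this, Finset.sum_const, Finset.card_range, nsmul_eq_mul]
    have h3 : (n : ℝ) ≤ N := by exact_mod_cast hn
    have h4 : (n : ℝ) * μ.real B ≤ (N + 1) * (δ / (N + 1)) := by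
      have : (0 : ℝ) ≤ N := Nat.cast_nonneg N
      gcongr
      linarith
    refine h4.trans (le_of_eq ?_)
    have : (N : ℝ) + 1 ≠ 0 := by positivity
    field_simp

/-- the step of the construction -/
lemma step (hm : Mix μ T) (hT : MeasurePreserving T μ μ) {A : Set X} (hA : MeasurableSet A)
    (h0 : 0 < μ.real A) (h1 : μ.real A < 1) {s δ : ℝ} (hs0 : 0 < s) (hs : s < 1) (hδ : 0 < δ)
    (N : ℕ) {C : Set X} (hC : MeasurableSet C) :
    ∃ S : Set X, MeasurableSet S ∧ s ≤ μ.real S ∧ μ.real S ≤ s + δ ∧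
      (∀ n ≤ N, μ.real (T^[n] ⁻¹' S \ S) ≤ δ) ∧
      ∀ n ≤ N, |μ.real ((C ∩ T^[n] ⁻¹' C) ∩ S) - μ.real (C ∩ T^[n] ⁻¹' C) * μ.real S| ≤ δ := by
  obtain ⟨S, hS, h2, h3, h4⟩ := exists_level hm hT hA h0 h1 hs hδ N
  have hW : ∀ n, MeasurableSet (C ∩ T^[n] ⁻¹' C) := fun n =>
    hC.inter ((hT.iterate n).measurable hC)
  have hev : ∀ᶠ M in atTop, ∀ n ∈ Finset.range (N + 1),
      |μ.real ((C ∩ T^[n] ⁻¹' C) ∩ T^[M] ⁻¹' S) - μ.real (C ∩ T^[n] ⁻¹' C) * μ.real S| ≤ δ := by
    rw [Filter.eventually_all_finset]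
    intro n _
    have ht := hm (C ∩ T^[n] ⁻¹' C) S (hW n) hS
    have := (tendsto_iff_norm_sub_tendsto_zero.1 ht).eventually_le_const hδ
    simpa [Real.norm_eq_abs] using this
  obtain ⟨M, hM⟩ := hev.exists
  refine ⟨T^[M] ⁻¹' S, (hT.iterate M).measurable hS, ?_, ?_, ?_, ?_⟩
  · rw [real_preimage hT hS]; exact h2
  · rw [real_preimage hT hS]; exact h3 hs0
  · intro n hn
    have : T^[n] ⁻¹' (T^[M] ⁻¹' S) \ T^[M] ⁻¹' S = T^[M] ⁻¹' (T^[n] ⁻¹' S \ S) := by
      rw [preimage_sdiff, ← preimage_comp, ← preimage_comp, ← Function.iterate_add,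
        ← Function.iterate_add, Nat.add_comm]
    rw [this, real_preimage hT (((hT.iterate n).measurable hS).diff hS)]
    exact h4 n hn
  · intro n hn
    rw [real_preimage hT hS]
    exact hM n (Finset.mem_range.2 (Nat.lt_succ_of_le hn))


lemma mixtime (hm : Mix μ T) {C : Set X} (hC : MeasurableSet C) {ε : ℝ} (hε : 0 < ε) (N₀ : ℕ) :
    ∃ N : ℕ, N₀ < N ∧ ∀ n, N < n → |μ.real (C ∩ T^[n] ⁻¹' C) - μ.real C ^ 2| ≤ ε := by
  have ht := hm C C hC hC
  have h1 := (tendsto_iff_norm_sub_tendsto_zero.1 ht).eventually_le_const hε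
  obtain ⟨N, hN⟩ := eventually_atTop.1 h1
  refine ⟨max N (N₀ + 1), by omega, fun n hn => ?_⟩
  have := hN n (by omega)
  rw [Real.norm_eq_abs] at this
  rw [sq]
  exact this

/-- the weights -/
noncomputable def w (k : ℕ) : ℝ := (1 / 2) ^ (k + 6)

lemma w_pos (k : ℕ) : 0 < w k := by unfold w; positivity

lemma w_succ (k : ℕ) : w k = 2 * w (k + 1) := by
  unfold w
  rw [show k + 1 + 6 = (k + 6) + 1 from rfl, pow_succ]
  ring

lemma w_le (k : ℕ) : w k ≤ 1 / 64 := by
  induction k with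
  | zero => unfold w; norm_num
  | succ k ih =>
    have h1 := w_succ k
    have h2 := w_pos (k + 1)
    linarith

/-- all data of the construction -/
structure Data (μ : Measure X) (T : X → X) (C S : ℕ → Set X) (N : ℕ → ℕ) : Prop where
  zero : C 0 = univ
  nzero : N 0 = 0
  meas : ∀ k, MeasurableSet (C k)
  meas' : ∀ k, MeasurableSet (S k)
  succ : ∀ k, C (k + 1) = C k \ S k
  lt : ∀ k, N k < N (k + 1)
  lo : ∀ k, w k ≤ μ.real (S k)
  hi : ∀ k, μ.real (S k) ≤ w k + w k / 1000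
  inv : ∀ k, ∀ n ≤ N k, μ.real (T^[n] ⁻¹' S k \ S k) ≤ w k / 1000
  ind : ∀ k, ∀ n ≤ N k, |μ.real ((C k ∩ T^[n] ⁻¹' C k) ∩ S k) -
    μ.real (C k ∩ T^[n] ⁻¹' C k) * μ.real (S k)| ≤ w k / 1000
  mix : ∀ k, ∀ n, N k < n → |μ.real (C k ∩ T^[n] ⁻¹' C k) - μ.real (C k) ^ 2| ≤ w k / 1000

lemma exists_data (hm : Mix μ T) (hT : MeasurePreserving T μ μ) {A : Set X} (hA : MeasurableSet A)
    (h0 : 0 < μ.real A) (h1 : μ.real A < 1) : ∃ C S N, Data μ T C S N := by
  have key : ∀ (j : ℕ) (C : Set X) (N : ℕ), ∃ (S : Set X) (N' : ℕ), MeasurableSet C →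
      MeasurableSet S ∧ w j ≤ μ.real S ∧ μ.real S ≤ w j + w j / 1000 ∧
      (∀ n ≤ N, μ.real (T^[n] ⁻¹' S \ S) ≤ w j / 1000) ∧
      (∀ n ≤ N, |μ.real ((C ∩ T^[n] ⁻¹' C) ∩ S) - μ.real (C ∩ T^[n] ⁻¹' C) * μ.real S| ≤
        w j / 1000) ∧ N < N' ∧
      ∀ n, N' < n → |μ.real ((C \ S) ∩ T^[n] ⁻¹' (C \ S)) - μ.real (C \ S) ^ 2| ≤
        w (j + 1) / 1000 := by
    intro j C N
    by_cases hC : MeasurableSet C
    · obtain ⟨S, hS, h2, h3, h4, h5⟩ := step hm hT hA h0 h1 (w_pos j)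
        (by have := w_le j; linarith) (δ := w j / 1000) (by have := w_pos j; positivity) N hC
      obtain ⟨N', hN', h6⟩ := mixtime hm (hC.diff hS) (ε := w (j + 1) / 1000)
        (by have := w_pos (j + 1); positivity) N
      exact ⟨S, N', fun _ => ⟨hS, h2, h3, h4, h5, hN', h6⟩⟩
    · exact ⟨∅, 0, fun h => absurd h hC⟩
  choose fS fN hf using key
  let q : ℕ → Set X × ℕ := fun k => Nat.rec (univ, 0)
    (fun j p => (p.1 \ fS j p.1 p.2, fN j p.1 p.2)) k
  have hq0 : q 0 = (univ, 0) := rfl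
  have hq1 : ∀ j, q (j + 1) = ((q j).1 \ fS j (q j).1 (q j).2, fN j (q j).1 (q j).2) := fun j => rfl
  have hmeas : ∀ k, MeasurableSet (q k).1 := by
    intro k
    induction k with
    | zero => rw [hq0]; exact MeasurableSet.univ
    | succ k ih => rw [hq1]; exact ih.diff (hf k _ _ ih).1
  refine ⟨fun k => (q k).1, fun k => fS k (q k).1 (q k).2, fun k => (q k).2, ?_⟩
  refine ⟨by rw [hq0], by rw [hq0], hmeas, fun k => (hf k _ _ (hmeas k)).1, fun k => by rw [hq1],
    fun k => ?_, fun k => (hf k _ _ (hmeas k)).2.1, fun k => (hf k _ _ (hmeas k)).2.2.1,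
    fun k => (hf k _ _ (hmeas k)).2.2.2.1, fun k => (hf k _ _ (hmeas k)).2.2.2.2.1, ?_⟩
  · have := (hf k (q k).1 (q k).2 (hmeas k)).2.2.2.2.2.1
    show (q k).2 < (q (k + 1)).2
    rw [hq1]
    exact this
  · intro k
    cases k with
    | zero =>
      intro n _
      rw [hq0]
      have := w_pos 0
      simp only [preimage_univ, inter_univ, probReal_univ]
      norm_num
      linarith
    | succ k =>
      intro n hn
      have := (hf k (q k).1 (q k).2 (hmeas k)).2.2.2.2.2.2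
      simp only [hq1] at hn ⊢
      exact this n hn

section
variable {C S : ℕ → Set X} {N : ℕ → ℕ}

lemma c_succ (h : Data μ T C S N) (k : ℕ) :
    μ.real (C (k + 1)) = μ.real (C k) - μ.real (C k ∩ S k) := by
  rw [h.succ k]
  have := measureReal_inter_add_sdiff (μ := μ) (s := C k) (h.meas' k)
  linarith

lemma c_ind (h : Data μ T C S N) (k : ℕ) :
    |μ.real (C k ∩ S k) - μ.real (C k) * μ.real (S k)| ≤ w k / 1000 := by
  have := h.ind k 0 (Nat.zero_le _)
  simpa using this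

lemma c_lower (h : Data μ T C S N) (k : ℕ) :
    1 - (1 + 1 / 500) * (1 / 32 - 2 * w k) ≤ μ.real (C k) := by
  induction k with
  | zero =>
    rw [h.zero, probReal_univ]
    unfold w
    norm_num
  | succ k ih =>
    have h1 := c_succ h k
    have h2 := (abs_le.1 (c_ind h k)).2
    have h3 := h.hi k
    have h4 : μ.real (C k) * μ.real (S k) ≤ μ.real (S k) := by
      have : μ.real (C k) ≤ 1 := measureReal_le_one
      have h5 : 0 ≤ μ.real (S k) := measureReal_nonneg
      nlinarith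
    have h6 := w_succ k
    have h7 := w_pos (k + 1)
    linarith

lemma c_ge (h : Data μ T C S N) (k : ℕ) : 29 / 30 ≤ μ.real (C k) := by
  have h1 := c_lower h k
  have h2 := w_pos k
  linarith

/-- the early phase -/
lemma early (h : Data μ T C S N) (k n : ℕ) (hn : n ≤ N k) :
    μ.real (C k ∩ T^[n] ⁻¹' C k) - μ.real (C k) ^ 2 + 8 / 10 * w k ≤
      μ.real (C (k + 1) ∩ T^[n] ⁻¹' C (k + 1)) - μ.real (C (k + 1)) ^ 2 := by
  set W := C k ∩ T^[n] ⁻¹' C k with hW
  have h1 : W ⊆ (C (k + 1) ∩ T^[n] ⁻¹' C (k + 1)) ∪ ((W ∩ S k) ∪ (T^[n] ⁻¹' S k \ S k)) := by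
    rintro x ⟨hx1, hx2⟩
    rw [h.succ k]
    by_cases h3 : x ∈ S k
    · exact Or.inr (Or.inl ⟨⟨hx1, hx2⟩, h3⟩)
    · by_cases h4 : x ∈ T^[n] ⁻¹' S k
      · exact Or.inr (Or.inr ⟨h4, h3⟩)
      · exact Or.inl ⟨⟨hx1, h3⟩, ⟨hx2, h4⟩⟩
  have h2 : μ.real W ≤ μ.real (C (k + 1) ∩ T^[n] ⁻¹' C (k + 1)) +
      (μ.real (W ∩ S k) + μ.real (T^[n] ⁻¹' S k \ S k)) :=
    (measureReal_mono h1).trans ((measureReal_union_le _ _).trans
      (add_le_add le_rfl (measureReal_union_le _ _)))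
  have h3 := h.inv k n hn
  have h4 := (abs_le.1 (h.ind k n hn)).2
  have h5 := c_succ h k
  have h6 := (abs_le.1 (c_ind h k)).1
  have h7 := h.lo k
  have h8 := h.hi k
  have h9 := c_ge h k
  have h10 : μ.real (C k) ≤ 1 := measureReal_le_one
  have h11 : μ.real W ≤ 1 := measureReal_le_one
  have h12 := w_pos k
  have h13 := w_le k
  have h14 : 0 ≤ μ.real (C (k + 1)) := measureReal_nonneg
  set c := μ.real (C k)
  set c' := μ.real (C (k + 1))
  set r := μ.real W
  set s := μ.real (S k)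
  set δ := w k / 1000 with hδ
  have hδ0 : 0 < δ := by rw [hδ]; positivity
  have hc' : c' ≤ (1 - s) * c + δ := by linarith
  have hs1 : s ≤ 1 / 60 := by linarith
  have hsq : c' ^ 2 ≤ (1 - s) ^ 2 * c ^ 2 + 3 * δ := by
    have e1 : c' ^ 2 ≤ ((1 - s) * c + δ) ^ 2 := by gcongr
    have e2 : (1 - s) * c ≤ 1 := by nlinarith
    have e3 : ((1 - s) * c + δ) ^ 2 = (1 - s) ^ 2 * c ^ 2 + 2 * ((1 - s) * c) * δ + δ ^ 2 := by ring
    have e4 : δ ≤ 1 := by rw [hδ]; linarith
    nlinarith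
  have hr : (1 - s) * r - 2 * δ ≤ μ.real (C (k + 1) ∩ T^[n] ⁻¹' C (k + 1)) := by linarith
  have hsr : s * r ≤ s := by nlinarith
  have hcc : (29 / 30) ^ 2 ≤ c ^ 2 := by gcongr
  have hm : (29 / 30 : ℝ) ^ 2 * (s * (2 - 1 / 60)) ≤ c ^ 2 * (s * (2 - s)) := by
    have : 0 ≤ s := by linarith
    have : s * (2 - 1 / 60) ≤ s * (2 - s) := by nlinarith
    have h0 : 0 ≤ s * (2 - 1 / 60) := by nlinarith
    exact mul_le_mul hcc this h0 (sq_nonneg c)
  have hw : w k = 1000 * δ := by rw [hδ]; ring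
  nlinarith

/-- the intermediate phase -/
lemma inter (h : Data μ T C S N) (hT : MeasurePreserving T μ μ) (k n : ℕ) (hn : N k < n) :
    -(1 / 10 * w k) ≤
      μ.real (C (k + 1) ∩ T^[n] ⁻¹' C (k + 1)) - μ.real (C (k + 1)) ^ 2 := by
  set D := C k ∩ S k with hD
  have hDm : MeasurableSet D := (h.meas k).inter (h.meas' k)
  have h1 : C k ∩ T^[n] ⁻¹' C k ⊆ (C (k + 1) ∩ T^[n] ⁻¹' C (k + 1)) ∪ (D ∪ T^[n] ⁻¹' D) := by
    rintro x ⟨hx1, hx2⟩
    rw [h.succ k]
    by_cases h3 : x ∈ S k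
    · exact Or.inr (Or.inl ⟨hx1, h3⟩)
    · by_cases h4 : x ∈ T^[n] ⁻¹' S k
      · exact Or.inr (Or.inr ⟨hx2, h4⟩)
      · exact Or.inl ⟨⟨hx1, h3⟩, ⟨hx2, h4⟩⟩
  have h2 : μ.real (C k ∩ T^[n] ⁻¹' C k) ≤ μ.real (C (k + 1) ∩ T^[n] ⁻¹' C (k + 1)) +
      (μ.real D + μ.real (T^[n] ⁻¹' D)) :=
    (measureReal_mono h1).trans ((measureReal_union_le _ _).trans
      (add_le_add le_rfl (measureReal_union_le _ _)))
  rw [real_preimage hT hDm] at h2
  have h3 := (abs_le.1 (h.mix k n hn)).1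
  have h5 := c_succ h k
  have h6 := (abs_le.1 (c_ind h k)).2
  have h8 := h.hi k
  have h9 := c_ge h k
  have h10 : μ.real (C k) ≤ 1 := measureReal_le_one
  have h12 := w_pos k
  have h13 := w_le k
  have h14 : 0 ≤ μ.real D := measureReal_nonneg
  have h15 : 0 ≤ μ.real (S k) := measureReal_nonneg
  set c := μ.real (C k)
  set c' := μ.real (C (k + 1))
  set r := μ.real (C k ∩ T^[n] ⁻¹' C k)
  set s := μ.real (S k)
  have hx : μ.real D ≤ (1 + 1 / 500) * w k := by nlinarith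
  have hc' : c' = c - μ.real D := h5
  rw [hc']
  have e1 : μ.real D ^ 2 ≤ ((1 + 1 / 500) * w k) * ((1 + 1 / 500) * (1 / 64)) := by
    rw [sq]
    refine mul_le_mul hx (hx.trans (by linarith)) h14 (by linarith)
  have e2 : μ.real D * (1 - c) ≤ ((1 + 1 / 500) * w k) * (1 / 30) := by
    refine mul_le_mul hx (by linarith) (by linarith) (by linarith)
  nlinarith

lemma final (h : Data μ T C S N) (hT : MeasurePreserving T μ μ) (n : ℕ) (hn : 1 ≤ n) :
    μ.real (⋂ k, C k) ^ 2 < μ.real ((⋂ k, C k) ∩ T^[n] ⁻¹' (⋂ k, C k)) := by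
  have hstrict : StrictMono N := strictMono_nat_of_lt_succ h.lt
  -- the phase
  obtain ⟨J, hJ1, hJ2⟩ : ∃ J, N J < n ∧ n ≤ N (J + 1) := by
    have hex : ∃ k, n ≤ N k := ⟨n, hstrict.id_le n⟩
    classical
    have h1 := Nat.find_spec hex
    have h2 : Nat.find hex ≠ 0 := by
      intro h3
      rw [h3, h.nzero] at h1
      omega
    obtain ⟨J, hJ⟩ := Nat.exists_eq_succ_of_ne_zero h2
    refine ⟨J, ?_, ?_⟩
    · have := Nat.find_min hex (m := J) (by omega)
      exact not_le.1 this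
    · rw [← Nat.succ_eq_add_one, ← hJ]; exact h1
  have hD : ∀ m, 6 / 10 * w (J + 1) ≤ μ.real (C (J + 2 + m) ∩ T^[n] ⁻¹' C (J + 2 + m)) -
      μ.real (C (J + 2 + m)) ^ 2 := by
    intro m
    induction m with
    | zero =>
      have h1 := inter h hT J n hJ1
      have h2 := early h (J + 1) n hJ2
      have h3 := w_succ J
      simp only [Nat.add_zero]
      have : J + 1 + 1 = J + 2 := rfl
      rw [this] at h2
      linarith
    | succ m ih =>
      have h2 := early h (J + 2 + m) n (hJ2.trans (hstrict.monotone (by omega)))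
      have h3 := w_pos (J + 2 + m)
      have : J + 2 + m + 1 = J + 2 + (m + 1) := rfl
      rw [this] at h2
      linarith
  have hanti : Antitone C := antitone_nat_of_succ_le fun k => by
    rw [h.succ k]; exact sdiff_le
  have ht1 : Tendsto (fun k => μ.real (C k)) atTop (𝓝 (μ.real (⋂ k, C k))) :=
    (ENNReal.tendsto_toReal (measure_ne_top μ _)).comp
      (tendsto_measure_iInter_atTop (fun k => (h.meas k).nullMeasurableSet) hanti
        ⟨0, measure_ne_top μ _⟩)
  have hset : (⋂ k, C k) ∩ T^[n] ⁻¹' (⋂ k, C k) = ⋂ k, (C k ∩ T^[n] ⁻¹' C k) := by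
    rw [preimage_iInter, iInter_inter_distrib]
  have ht2 : Tendsto (fun k => μ.real (C k ∩ T^[n] ⁻¹' C k)) atTop
      (𝓝 (μ.real ((⋂ k, C k) ∩ T^[n] ⁻¹' (⋂ k, C k)))) := by
    rw [hset]
    refine (ENNReal.tendsto_toReal (measure_ne_top μ _)).comp
      (tendsto_measure_iInter_atTop (fun k => ?_) ?_ ⟨0, measure_ne_top μ _⟩)
    · exact ((h.meas k).inter ((hT.iterate n).measurable (h.meas k))).nullMeasurableSet
    · intro a b hab
      exact inter_subset_inter (hanti hab) (preimage_mono (hanti hab))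
  have ht3 := ht2.sub (ht1.pow 2)
  have hge : 6 / 10 * w (J + 1) ≤ μ.real ((⋂ k, C k) ∩ T^[n] ⁻¹' (⋂ k, C k)) -
      μ.real (⋂ k, C k) ^ 2 := by
    refine ge_of_tendsto ht3 ?_
    filter_upwards [eventually_ge_atTop (J + 2)] with k hk
    obtain ⟨m, rfl⟩ := Nat.exists_eq_add_of_le hk
    exact hD m
  have := w_pos (J + 1)
  linarith

end

/-- **Every nontrivial mixing system has a strictly over-recurrent set.** -/
theorem overrec (hT : MeasurePreserving T μ μ)
    (hne : ∃ A : Set X, MeasurableSet A ∧ 0 < μ A ∧ μ A < 1)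
    (hmix : ∀ A B : Set X, MeasurableSet A → MeasurableSet B →
      Tendsto (fun n : ℕ => μ (A ∩ T^[n] ⁻¹' B)) atTop (𝓝 (μ A * μ B))) :
    ∃ A : Set X, MeasurableSet A ∧ 0 < μ A ∧ μ A < 1 ∧
      ∀ n : ℕ, 1 ≤ n → μ A ^ 2 < μ (A ∩ T^[n] ⁻¹' A) := by
  have hm : Mix μ T := by
    intro A B hA hB
    have h1 := (ENNReal.tendsto_toReal
      (ENNReal.mul_ne_top (measure_ne_top μ A) (measure_ne_top μ B))).comp (hmix A B hA hB)
    rw [ENNReal.toReal_mul] at h1
    exact h1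
  obtain ⟨A, hA, h0, h1⟩ := hne
  have h0' : 0 < μ.real A := ENNReal.toReal_pos h0.ne' (measure_ne_top μ A)
  have h1' : μ.real A < 1 := by
    have := (ENNReal.toReal_lt_toReal (measure_ne_top μ A) ENNReal.one_ne_top).2 h1
    rw [ENNReal.toReal_one] at this
    exact this
  obtain ⟨C, S, N, h⟩ := exists_data hm hT hA h0' h1'
  have hCm : MeasurableSet (⋂ k, C k) := MeasurableSet.iInter h.meas
  have hanti : Antitone C := antitone_nat_of_succ_le fun k => by
    rw [h.succ k]; exact sdiff_le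
  have ht1 : Tendsto (fun k => μ.real (C k)) atTop (𝓝 (μ.real (⋂ k, C k))) :=
    (ENNReal.tendsto_toReal (measure_ne_top μ _)).comp
      (tendsto_measure_iInter_atTop (fun k => (h.meas k).nullMeasurableSet) hanti
        ⟨0, measure_ne_top μ _⟩)
  have hpos : 29 / 30 ≤ μ.real (⋂ k, C k) :=
    ge_of_tendsto ht1 (Eventually.of_forall fun k => c_ge h k)
  have hlt : μ.real (⋂ k, C k) < 1 := by
    have h2 : μ.real (⋂ k, C k) ≤ μ.real (C 1) := measureReal_mono (iInter_subset _ _)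
    have h3 := c_succ h 0
    have h4 := (abs_le.1 (c_ind h 0)).1
    have h5 := h.lo 0
    have h6 := w_pos 0
    rw [h.zero, probReal_univ] at h3 h4
    simp only [Nat.zero_add] at h3
    linarith
  have key : ∀ B D : Set X, μ.real B ^ 2 < μ.real D → μ B ^ 2 < μ D := by
    intro B D hBD
    rw [← ENNReal.toReal_lt_toReal (ENNReal.pow_ne_top (measure_ne_top μ B)) (measure_ne_top μ D),
      ENNReal.toReal_pow]
    exact hBD
  refine ⟨⋂ k, C k, hCm, ?_, ?_, fun n hn => key _ _ (final h hT n hn)⟩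
  · by_contra hcon
    have h2 : μ (⋂ k, C k) = 0 := by simpa using hcon
    have h3 : μ.real (⋂ k, C k) = 0 := by simp [Measure.real, h2]
    rw [h3] at hpos
    norm_num at hpos
  · rw [← ENNReal.toReal_lt_toReal (measure_ne_top μ _) ENNReal.one_ne_top, ENNReal.toReal_one]
    exact hlt

end Pool.Agent.N824.OR
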