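import Mathlib
import Pool.Agent.N824.OverRec

/-!
# Q2 of MP_be5f19_an: every mixing system has a set with `μ (A ∩ T ^ n A) > μ (A) ^ 2` for all `n ≠ 0`

`T` is an invertible measurable transformation of a non-atomic probability space with measurable inverse, `T ^ n` is
its `n`-th power, `n` an integer.

The proof: one constructs sets `S k` with measures close to `2 ^ (-k-6)`, `S k` being almost invariant under `T ^ n`,
`n ≤ N k`, and almost independent of the sets `C k ∩ T ^ (-n) (C k)`, where `C k` is the complement of the union of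
the `S j`, `j < k`, and `N k` is so large that `μ (C k ∩ T ^ (-n) (C k))` is close to `μ (C k) ^ 2` for `n > N k`.
The intersection of the `C k` is the set `A`: for `N k < n ≤ N (k + 1)` only the set `S k` is neither almost invariant
nor mixed, and the loss is at most `μ (S k) / 10`, while `S (k + 1)` contributes a gain of `8 μ (S (k + 1)) / 10`.
-/

set_option autoImplicit false

open MeasureTheory Filter Topology

namespace Pool.Agent.Results.MP_be5f19_an.StrictlyOverRecurrent

/-- **Every invertible mixing system on a non-atomic probability space contains a set `A` of positive measure with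
`μ (A ∩ T ^ n A) > μ (A) ^ 2` for every `n ≠ 0`.** -/
theorem result (X : Type*) [MeasurableSpace X] (μ : Measure X) [IsProbabilityMeasure μ]
    (hnonatomic : ∀ B : Set X, MeasurableSet B → 0 < μ B →
      ∃ C : Set X, C ⊆ B ∧ MeasurableSet C ∧ 0 < μ C ∧ μ C < μ B)
    (T : Equiv.Perm X) (hT : Measurable T) (hT' : Measurable T.symm)
    (hpres : ∀ B : Set X, MeasurableSet B → μ (T ⁻¹' B) = μ B)
    (hmix : ∀ A B : Set X, MeasurableSet A → MeasurableSet B →
      Tendsto (fun n : ℕ => μ (A ∩ (T ^ n) '' B)) atTop (𝓝 (μ A * μ B))) :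
    ∃ A : Set X, MeasurableSet A ∧ 0 < μ A ∧
      ∀ n : ℤ, n ≠ 0 → μ A ^ 2 < μ (A ∩ (T ^ n) '' A) := by
  have hmp : MeasurePreserving T μ μ :=
    ⟨hT, Measure.ext fun B hB => by rw [Measure.map_apply hT hB, hpres B hB]⟩
  -- the preimage under the iterate, in terms of the image
  have himg : ∀ (n : ℕ) (A B : Set X), MeasurableSet A → MeasurableSet B →
      μ (A ∩ (T ^ n) '' B) = μ (B ∩ T^[n] ⁻¹' A) := by
    intro n A B hA hB
    have h1 : ((T ^ n : Equiv.Perm X) : X → X) = T^[n] := Equiv.Perm.iterate_eq_pow T n ▸ rfl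
    have hmn : MeasurePreserving T^[n] μ μ := hmp.iterate n
    have hBi : (T ^ n) '' B = ((T.symm)^[n]) ⁻¹' B := by
      rw [Equiv.image_eq_preimage_symm]
      congr 1
    have hBm : MeasurableSet ((T ^ n) '' B) := by
      rw [hBi]
      exact (hT'.iterate n) hB
    have h2 : μ (A ∩ (T ^ n) '' B) = μ (T^[n] ⁻¹' (A ∩ (T ^ n) '' B)) :=
      (hmn.measure_preimage (hA.inter hBm).nullMeasurableSet).symm
    rw [h2]
    congr 1
    rw [Set.preimage_inter, ← h1, Set.preimage_image_eq B (T ^ n).injective, Set.inter_comm]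
  have hmix' : ∀ A B : Set X, MeasurableSet A → MeasurableSet B →
      Tendsto (fun n : ℕ => μ (A ∩ T^[n] ⁻¹' B)) atTop (𝓝 (μ A * μ B)) := by
    intro A B hA hB
    have h1 := hmix B A hB hA
    rw [mul_comm]
    exact h1.congr fun n => himg n B A hB hA
  obtain ⟨C, _, hC, hC0, hC1⟩ := hnonatomic Set.univ MeasurableSet.univ (by simp)
  rw [measure_univ] at hC1
  obtain ⟨A, hA, h0, _, h2⟩ := Pool.Agent.N824.OR.overrec hmp ⟨C, hC, hC0, hC1⟩ hmix'
  refine ⟨A, hA, h0, fun n hn => ?_⟩
  obtain ⟨m, rfl | rfl⟩ := Int.eq_nat_or_neg n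
  · have hm : 1 ≤ m := by omega
    rw [zpow_natCast, himg m A A hA hA]
    exact h2 m hm
  · have hm : 1 ≤ m := by omega
    have h3 : A ∩ (T ^ (-(m : ℤ))) '' A = A ∩ T^[m] ⁻¹' A := by
      congr 1
      rw [zpow_neg, zpow_natCast, Equiv.image_eq_preimage_symm]
      congr 1
    rw [h3]
    exact h2 m hm

end Pool.Agent.Results.MP_be5f19_an.StrictlyOverRecurrent
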