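import Mathlib
import Pool.Agent.H136R3.Dom

/-!
# Separate continuity on products of compact spaces

Kaplansky's countable tightness, Namioka's theorem (existence of points of small oscillation) and
Grothendieck's theorem (pointwise compact bounded sets of continuous functions are weakly compact),
all without metrizability or separability assumptions.
-/

set_option autoImplicit false

open Set Filter Topology MeasureTheory

namespace N824.Wap

/-- closure in the topology of pointwise convergence -/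
theorem mem_closure_fun_iff {D : Type*} {A : Set (D → ℝ)} {g : D → ℝ} :
    g ∈ closure A ↔ ∀ (I : Finset D) (ε : ℝ), 0 < ε → ∃ a ∈ A, ∀ y ∈ I, |a y - g y| < ε := by
  constructor
  · intro h I ε hε
    rw [mem_closure_iff] at h
    have ho : IsOpen {a : D → ℝ | ∀ y ∈ I, |a y - g y| < ε} := by
      have : {a : D → ℝ | ∀ y ∈ I, |a y - g y| < ε} = ⋂ y ∈ I, {a : D → ℝ | |a y - g y| < ε} := by
        ext a; simp
      rw [this]
      refine isOpen_biInter_finset fun y _ => ?_
      exact isOpen_lt (by fun_prop) continuous_const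
    obtain ⟨a, ha1, ha2⟩ := h _ ho (by intro y _; simpa using hε)
    exact ⟨a, ha2, ha1⟩
  · intro h
    rw [mem_closure_iff]
    intro V hV hg
    obtain ⟨I, u, hu, hsub⟩ := isOpen_pi_iff.1 hV g hg
    have hex : ∀ y ∈ I, ∃ ε : ℝ, 0 < ε ∧ Metric.ball (g y) ε ⊆ u y := fun y hy =>
      Metric.isOpen_iff.1 (hu y hy).1 _ (hu y hy).2
    choose! ε hε1 hε2 using hex
    obtain ⟨δ, hδ, hδ'⟩ : ∃ δ : ℝ, 0 < δ ∧ ∀ y ∈ I, δ ≤ ε y := by
      rcases I.eq_empty_or_nonempty with rfl | hI
      · exact ⟨1, one_pos, by simp⟩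
      · refine ⟨I.inf' hI ε, ?_, fun y hy => Finset.inf'_le _ hy⟩
        rw [Finset.lt_inf'_iff]
        exact hε1
    obtain ⟨a, ha, ha'⟩ := h I δ hδ
    refine ⟨a, hsub ?_, ha⟩
    intro y hy
    refine hε2 y hy ?_
    rw [Metric.mem_ball, Real.dist_eq]
    exact (ha' y hy).trans_le (hδ' y hy)

/-- Kaplansky: countable tightness of the pointwise topology on `C(D)`, `D` compact. -/
theorem tight {D : Type*} [TopologicalSpace D] [CompactSpace D] {κ : Type*} (h : κ → D → ℝ)
    (hc : ∀ i, Continuous (h i)) (h0 : D → ℝ) (h0c : Continuous h0) (A : Set κ)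
    (hcl : h0 ∈ closure (h '' A)) :
    ∃ B ⊆ A, B.Countable ∧ h0 ∈ closure (h '' B) := by
  classical
  have key : ∀ n k : ℕ, ∃ B : Finset κ, (∀ i ∈ B, i ∈ A) ∧
      ∀ y : Fin n → D, ∃ i ∈ B, ∀ j, |h i (y j) - h0 (y j)| < 1 / ((k : ℝ) + 1) := by
    intro n k
    have hpos : (0 : ℝ) < 1 / ((k : ℝ) + 1) := by positivity
    have h1 : ∀ y : Fin n → D, ∃ i ∈ A, ∀ j, |h i (y j) - h0 (y j)| < 1 / ((k : ℝ) + 1) := by
      intro y
      obtain ⟨a, ⟨i, hi, rfl⟩, ha⟩ :=
        mem_closure_fun_iff.1 hcl (Finset.univ.image y) _ hpos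
      exact ⟨i, hi, fun j => ha _ (Finset.mem_image_of_mem _ (Finset.mem_univ _))⟩
    choose c hcA hc' using h1
    have hopen : ∀ y : Fin n → D, IsOpen {z : Fin n → D |
        ∀ j, |h (c y) (z j) - h0 (z j)| < 1 / ((k : ℝ) + 1)} := by
      intro y
      rw [ofPred_forall]
      refine isOpen_iInter_of_finite fun j => ?_
      refine isOpen_lt ?_ continuous_const
      have h2 := (hc (c y)).comp (continuous_apply (A := fun _ : Fin n => D) j)
      have h3 := h0c.comp (continuous_apply (A := fun _ : Fin n => D) j)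
      exact (h2.sub h3).abs
    obtain ⟨t, ht⟩ := isCompact_univ.elim_finite_subcover
      (fun y : Fin n → D => {z : Fin n → D | ∀ j, |h (c y) (z j) - h0 (z j)| < 1 / ((k : ℝ) + 1)})
      hopen (fun y _ => mem_iUnion.2 ⟨y, hc' y⟩)
    refine ⟨t.image c, ?_, ?_⟩
    · intro i hi
      obtain ⟨y, _, rfl⟩ := Finset.mem_image.1 hi
      exact hcA y
    · intro z
      obtain ⟨y, hy⟩ := mem_iUnion.1 (ht (mem_univ z))
      obtain ⟨hyt, hz⟩ := mem_iUnion.1 hy
      exact ⟨c y, Finset.mem_image_of_mem _ hyt, hz⟩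
  choose B hB1 hB2 using key
  refine ⟨⋃ n, ⋃ k, (B n k : Set κ), ?_, ?_, ?_⟩
  · intro i hi
    simp only [mem_iUnion] at hi
    obtain ⟨n, k, hi⟩ := hi
    exact hB1 n k i hi
  · exact countable_iUnion fun n => countable_iUnion fun k => (B n k).countable_toSet
  · rw [mem_closure_fun_iff]
    intro I ε hε
    obtain ⟨k, hk⟩ := exists_nat_one_div_lt hε
    obtain ⟨i, hi, hi'⟩ := hB2 I.card k (fun j => (I.equivFin.symm j : D))
    refine ⟨h i, ⟨i, mem_iUnion.2 ⟨_, mem_iUnion.2 ⟨_, hi⟩⟩, rfl⟩, ?_⟩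
    intro y hy
    have h1 := hi' (I.equivFin ⟨y, hy⟩)
    simp only [Equiv.symm_apply_apply] at h1
    exact h1.trans hk

/-- The evaluation map to the range of a family of functions. -/
def ev {D κ : Type*} (h : κ → D → ℝ) (y : D) : range (fun (y : D) (k : κ) => h k y) :=
  ⟨fun k => h k y, mem_range_self y⟩

theorem ev_continuous {D : Type*} [TopologicalSpace D] {κ : Type*} (h : κ → D → ℝ)
    (hc : ∀ k, Continuous (h k)) : Continuous (ev h) :=
  Continuous.subtype_mk (continuous_pi fun k => hc k) _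

theorem ev_surjective {D : Type*} {κ : Type*} (h : κ → D → ℝ) :
    Function.Surjective (ev h) := by
  rintro ⟨_, y, rfl⟩
  exact ⟨y, rfl⟩

theorem range_compact {D : Type*} [TopologicalSpace D] [CompactSpace D] {κ : Type*}
    (h : κ → D → ℝ) (hc : ∀ k, Continuous (h k)) :
    CompactSpace (range (fun (y : D) (k : κ) => h k y)) :=
  isCompact_iff_compactSpace.1 (isCompact_range (continuous_pi fun k => hc k))

/-- A continuous pointwise limit factors through the evaluation map. -/
theorem factor {D : Type*} [TopologicalSpace D] [CompactSpace D] {κ : Type*} (h : κ → D → ℝ)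
    (hc : ∀ k, Continuous (h k)) (g : D → ℝ) (gc : Continuous g) (hg : g ∈ closure (range h)) :
    ∃ gb : C(range (fun (y : D) (k : κ) => h k y), ℝ), ∀ y, g y = gb (ev h y) := by
  have hq : IsQuotientMap (ev h) :=
    ((ev_continuous h hc).isClosedMap).isQuotientMap (ev_continuous h hc) (ev_surjective h)
  have hfib : ∀ y y', ev h y = ev h y' → g y = g y' := by
    intro y y' hyy
    have h1 : ∀ k, h k y = h k y' := fun k => congrFun (congrArg Subtype.val hyy) k
    have hcl : IsClosed {g : D → ℝ | g y = g y'} :=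
      isClosed_eq (continuous_apply y) (continuous_apply y')
    have hsub : range h ⊆ {g : D → ℝ | g y = g y'} := by
      rintro _ ⟨k, rfl⟩
      exact h1 k
    exact hcl.closure_subset_iff.2 hsub hg
  let F : C(D, range (fun (y : D) (k : κ) => h k y)) := ⟨ev h, ev_continuous h hc⟩
  have hq' : IsQuotientMap F := hq
  refine ⟨hq'.lift ⟨g, gc⟩ (fun a b hab => hfib a b hab), fun y => ?_⟩
  have := congrArg (fun k : C(D, ℝ) => k y) (hq'.lift_comp ⟨g, gc⟩ (fun a b hab => hfib a b hab))
  exact this.symm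

end N824.Wap
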