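import Pool.Agent.N824.WapA

set_option autoImplicit false

open Set Filter Topology MeasureTheory

namespace N824.Wap

/-- Namioka's theorem for compact spaces, in the form: a separately continuous function on a
product of compact spaces has small oscillation in the first variable, uniformly in the second,
on some nonempty open set. -/
theorem namioka {K D : Type*} [TopologicalSpace K] [CompactSpace K] [Nonempty K]
    [TopologicalSpace D] [CompactSpace D] (Φ : K → D → ℝ) (h1 : ∀ x, Continuous (Φ x))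
    (h2 : ∀ y, Continuous fun x => Φ x y) {ε : ℝ} (hε : 0 < ε) :
    ∃ U : Set K, IsOpen U ∧ U.Nonempty ∧ ∀ x ∈ U, ∀ x' ∈ U, ∀ y, |Φ x y - Φ x' y| ≤ ε := by
  classical
  have hΦ : Continuous Φ := continuous_pi h2
  by_contra H
  push Not at H
  -- bad points accumulate everywhere
  have hacc : ∀ x : K, Φ x ∈ closure (Φ '' {x' | ∃ y, ε / 2 < |Φ x' y - Φ x y|}) := by
    intro x
    rw [mem_closure_iff]
    intro V hV hx
    obtain ⟨x1, hx1, x2, hx2, y, hy⟩ := H (Φ ⁻¹' V) (hV.preimage hΦ) ⟨x, hx⟩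
    have htri : |Φ x1 y - Φ x2 y| ≤ |Φ x1 y - Φ x y| + |Φ x2 y - Φ x y| := by
      have h3 := abs_sub_le (Φ x1 y) (Φ x y) (Φ x2 y)
      rw [abs_sub_comm (Φ x y) (Φ x2 y)] at h3
      exact h3
    rcases lt_or_ge (ε / 2) |Φ x1 y - Φ x y| with h3 | h3
    · exact ⟨Φ x1, hx1, x1, ⟨y, h3⟩, rfl⟩
    · exact ⟨Φ x2, hx2, x2, ⟨y, by linarith⟩, rfl⟩
  have hB : ∀ x : K, ∃ B ⊆ {x' | ∃ y, ε / 2 < |Φ x' y - Φ x y|}, B.Countable ∧
      Φ x ∈ closure (Φ '' B) := fun x => tight Φ h1 (Φ x) (h1 x) _ (hacc x)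
  choose B hB1 hB2 hB3 using hB
  obtain ⟨x0⟩ := (inferInstance : Nonempty K)
  -- closing off
  let N : ℕ → Set K := fun n => Nat.rec {x0} (fun _ s => s ∪ ⋃ x ∈ s, B x) n
  have hN0 : N 0 = {x0} := rfl
  have hNs : ∀ n, N (n + 1) = N n ∪ ⋃ x ∈ N n, B x := fun n => rfl
  have hNc : ∀ n, (N n).Countable := by
    intro n
    induction n with
    | zero => rw [hN0]; exact countable_singleton _
    | succ n ih => rw [hNs]; exact ih.union (ih.biUnion fun x _ => hB2 x)
  let Dd : Set K := ⋃ n, N n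
  have hDc : Dd.Countable := countable_iUnion hNc
  have hDB : ∀ x ∈ Dd, B x ⊆ Dd := by
    intro x hx x' hx'
    obtain ⟨n, hn⟩ := mem_iUnion.1 hx
    refine mem_iUnion.2 ⟨n + 1, ?_⟩
    rw [hNs]
    exact Or.inr (mem_iUnion₂.2 ⟨x, hn, hx'⟩)
  have hx0 : x0 ∈ Dd := mem_iUnion.2 ⟨0, by rw [hN0]; rfl⟩
  have : Countable Dd := hDc.to_subtype
  let h : Dd → D → ℝ := fun k => Φ k
  have hc : ∀ k, Continuous (h k) := fun k => h1 k
  let K0 : Set (D → ℝ) := closure (range h)
  have hrc : IsCompact (range Φ) := isCompact_range hΦ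
  have hK0sub : K0 ⊆ range Φ := by
    refine closure_minimal ?_ hrc.isClosed
    rintro _ ⟨k, rfl⟩
    exact ⟨k, rfl⟩
  have hK0c : IsCompact K0 := hrc.of_isClosed_subset isClosed_closure hK0sub
  have : CompactSpace K0 := isCompact_iff_compactSpace.1 hK0c
  have : Nonempty K0 := ⟨⟨h ⟨x0, hx0⟩, subset_closure ⟨_, rfl⟩⟩⟩
  have hcont : ∀ g ∈ K0, Continuous g := by
    intro g hg
    obtain ⟨x, rfl⟩ := hK0sub hg
    exact h1 x
  have : CompactSpace (range (fun (y : D) (k : Dd) => h k y)) := range_compact h hc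
  have : Nonempty C(range (fun (y : D) (k : Dd) => h k y), ℝ) := ⟨0⟩
  let z := TopologicalSpace.denseSeq C(range (fun (y : D) (k : Dd) => h k y), ℝ)
  have hz : DenseRange z := TopologicalSpace.denseRange_denseSeq _
  let F : ℕ → Set K0 := fun n => {g | ∀ y, |(g : D → ℝ) y - z n (ev h y)| ≤ ε / 4}
  have hFc : ∀ n, IsClosed (F n) := by
    intro n
    have : F n = ⋂ y, {g : K0 | |(g : D → ℝ) y - z n (ev h y)| ≤ ε / 4} := by
      ext g; simp [F]
    rw [this]
    refine isClosed_iInter fun y => isClosed_le ?_ continuous_const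
    have : Continuous fun g : K0 => (g : D → ℝ) y := (continuous_apply y).comp continuous_subtype_val
    exact (this.sub continuous_const).abs
  have hFU : ⋃ n, F n = univ := by
    rw [eq_univ_iff_forall]
    rintro ⟨g, hg⟩
    obtain ⟨gb, hgb⟩ := factor h hc g (hcont g hg) hg
    obtain ⟨n, hn⟩ := Metric.denseRange_iff.1 hz gb (ε / 4) (by positivity)
    refine mem_iUnion.2 ⟨n, fun y => ?_⟩
    show |g y - z n (ev h y)| ≤ ε / 4
    rw [hgb y, ← Real.dist_eq]
    exact (ContinuousMap.dist_apply_le_dist _).trans hn.le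
  obtain ⟨n, ⟨g, hg⟩⟩ := nonempty_interior_of_iUnion_of_closed hFc hFU
  obtain ⟨W, hWF, hWo, hgW⟩ := mem_interior.1 hg
  obtain ⟨V, hV, hVW⟩ := isOpen_induced_iff.1 hWo
  have hgV : (g : D → ℝ) ∈ V := by
    have : g ∈ Subtype.val ⁻¹' V := by rw [hVW]; exact hgW
    exact this
  obtain ⟨_, hkV, k, rfl⟩ := mem_closure_iff.1 g.2 V hV hgV
  obtain ⟨_, hx'V, x', hx', rfl⟩ := mem_closure_iff.1 (hB3 k) V hV hkV
  have hx'D : x' ∈ Dd := hDB k k.2 hx'
  have hin : ∀ x ∈ Dd, Φ x ∈ V → ∀ y, |Φ x y - z n (ev h y)| ≤ ε / 4 := by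
    intro x hx hxV
    have h3 : (⟨Φ x, subset_closure ⟨⟨x, hx⟩, rfl⟩⟩ : K0) ∈ Subtype.val ⁻¹' V := hxV
    rw [hVW] at h3
    exact hWF h3
  obtain ⟨y, hy⟩ := hB1 k hx'
  have h4 := hin x' hx'D hx'V y
  have h5 := hin k k.2 hkV y
  have h6 := abs_sub_le (Φ x' y) (z n (ev h y)) (Φ k y)
  rw [abs_sub_comm (z n (ev h y)) (Φ k y)] at h6
  linarith

/-- The complexification of a real functional on `C(D, ℝ)`. -/
theorem exists_dominating_real {D : Type*} [TopologicalSpace D] [CompactSpace D] [T2Space D]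
    [MeasurableSpace D] [BorelSpace D] (Λ : C(D, ℝ) →L[ℝ] ℝ) :
    ∃ μ : Measure D, IsFiniteMeasure μ ∧ ∀ h : C(D, ℝ), |Λ h| ≤ ∫ x, |h x| ∂μ := by
  let Φ : StrongDual ℂ C(D, ℂ) := StrongDual.extendRCLike (𝕜 := ℂ)
    (Λ.comp (ContinuousLinearMap.compLeftContinuous ℝ D Complex.reCLM))
  obtain ⟨μ, hμ, -, hΦ⟩ := Pool.Agent.H136R3.exists_dominating Φ
  refine ⟨μ, hμ, fun h => ?_⟩
  let hC : C(D, ℂ) := ⟨fun x => (h x : ℂ), by fun_prop⟩
  have h1 := hΦ hC
  have h2 : (Φ hC).re = Λ h := by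
    have h3 : RCLike.re (Φ hC) = _ := StrongDual.re_extendRCLike_apply _ hC
    refine h3.trans ?_
    show Λ _ = Λ h
    congr 1
  have h3 : |Λ h| ≤ ‖Φ hC‖ := by
    rw [← h2]; exact Complex.abs_re_le_norm _
  refine h3.trans (h1.trans (le_of_eq ?_))
  refine integral_congr_ae (Eventually.of_forall fun x => ?_)
  show ‖((h x : ℝ) : ℂ)‖ = |h x|
  rw [Complex.norm_real, Real.norm_eq_abs]

/-- Grothendieck's theorem: a functional on `C(D)` is continuous along a bounded, pointwise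
continuous family of continuous functions indexed by a compact space. -/
theorem grothendieck {K D : Type*} [TopologicalSpace K] [CompactSpace K] [TopologicalSpace D]
    [CompactSpace D] [T2Space D] (H : K → C(D, ℝ)) (hH : ∀ y, Continuous fun x => H x y)
    (M : ℝ) (hM : ∀ x, ‖H x‖ ≤ M) (Λ : C(D, ℝ) →L[ℝ] ℝ) :
    Continuous fun x => Λ (H x) := by
  classical
  rcases isEmpty_or_nonempty D with hD | hD
  · have : Subsingleton C(D, ℝ) := ⟨fun f g => by ext x; exact hD.elim x⟩
    have : (fun x => Λ (H x)) = fun _ => Λ 0 := by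
      funext x; congr 1; exact Subsingleton.elim _ _
    rw [this]; exact continuous_const
  let Φ : K → D → ℝ := fun x y => H x y
  have hΦ : Continuous Φ := continuous_pi hH
  have h1 : ∀ x, Continuous (Φ x) := fun x => (H x).continuous
  rw [continuous_iff_continuousAt]
  intro x0
  by_contra hcon
  have hcon2 : ∃ ε : ℝ, 0 < ε ∧ ∃ᶠ x in 𝓝 x0, ε ≤ |Λ (H x) - Λ (H x0)| := by
    by_contra hno
    apply hcon
    rw [ContinuousAt, Metric.tendsto_nhds]
    intro ε hε
    by_contra hno2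
    exact hno ⟨ε, hε, fun hev => hno2 (hev.mono fun x hx => by
      rw [Real.dist_eq]; exact not_le.1 hx)⟩
  obtain ⟨ε, hε, hfr⟩ := hcon2
  have hcl : Φ x0 ∈ closure (Φ '' {x | ε ≤ |Λ (H x) - Λ (H x0)|}) := by
    have h3 : x0 ∈ closure {x | ε ≤ |Λ (H x) - Λ (H x0)|} := mem_closure_iff_frequently.2 hfr
    exact image_closure_subset_closure_image hΦ ⟨x0, h3, rfl⟩
  obtain ⟨B, hBA, hBc, hBcl⟩ := tight Φ h1 (Φ x0) (h1 x0) _ hcl
  have : Countable B := hBc.to_subtype
  let h : B → D → ℝ := fun k => Φ k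
  have hc : ∀ k, Continuous (h k) := fun k => h1 k
  have hrange : Φ '' B = range h := by
    ext g; constructor
    · rintro ⟨x, hx, rfl⟩; exact ⟨⟨x, hx⟩, rfl⟩
    · rintro ⟨k, rfl⟩; exact ⟨k, k.2, rfl⟩
  rw [hrange] at hBcl
  let L := range (fun (y : D) (k : B) => h k y)
  have : CompactSpace L := range_compact h hc
  have : Nonempty L := ⟨ev h (Classical.arbitrary D)⟩
  let l := TopologicalSpace.denseSeq L
  have hl : DenseRange l := TopologicalSpace.denseRange_denseSeq _
  choose yl hyl using fun i => ev_surjective h (l i)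
  -- a sequence converging pointwise
  have hseq : ∀ j : ℕ, ∃ k : B, ∀ i ≤ j, |h k (yl i) - Φ x0 (yl i)| < 1 / ((j : ℝ) + 1) := by
    intro j
    obtain ⟨_, ⟨k, rfl⟩, hk⟩ := mem_closure_fun_iff.1 hBcl ((Finset.range (j + 1)).image yl)
      (1 / ((j : ℝ) + 1)) (by positivity)
    exact ⟨k, fun i hi => hk _ (Finset.mem_image_of_mem _ (Finset.mem_range.2 (by omega)))⟩
  choose k hk using hseq
  obtain ⟨g0, hg0⟩ := factor h hc (Φ x0) (h1 x0) hBcl
  have hpt : ∀ y, Tendsto (fun j => h (k j) y) atTop (𝓝 (Φ x0 y)) := by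
    intro y
    rw [tendsto_iff_ultrafilter]
    intro U hU
    -- cluster point in `K`
    let V : Ultrafilter K := U.map fun j => (k j : K)
    have hV : (V : Filter K) ≤ 𝓝 V.lim := V.le_nhds_lim
    set xs := V.lim with hxs
    have hUx : Tendsto (fun j => (k j : K)) U (𝓝 xs) := hV
    have hlim : ∀ y, Tendsto (fun j => h (k j) y) U (𝓝 (Φ xs y)) := fun y =>
      ((hH y).tendsto xs).comp hUx
    have hxscl : Φ xs ∈ closure (range h) := by
      have h3 : Tendsto (fun j => h (k j)) U (𝓝 (Φ xs)) := (hΦ.tendsto xs).comp hUx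
      exact mem_closure_of_tendsto h3 (Eventually.of_forall fun j => ⟨k j, rfl⟩)
    obtain ⟨gs, hgs⟩ := factor h hc (Φ xs) (h1 xs) hxscl
    have hgeq : gs = g0 := by
      apply DFunLike.coe_injective
      refine hl.equalizer gs.continuous g0.continuous ?_
      funext i
      show gs (l i) = g0 (l i)
      rw [← hyl i, ← hgs, ← hg0]
      refine tendsto_nhds_unique (hlim (yl i)) ?_
      have h3 : Tendsto (fun j : ℕ => 1 / ((j : ℝ) + 1)) U (𝓝 0) :=
        tendsto_one_div_add_atTop_nhds_zero_nat.mono_left hU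
      have h4 : Tendsto (fun j => h (k j) (yl i) - Φ x0 (yl i)) U (𝓝 0) := by
        refine squeeze_zero_norm' ?_ h3
        have h5 : ∀ᶠ j : ℕ in U, i ≤ j := hU (eventually_ge_atTop i)
        filter_upwards [h5] with j hj
        exact (hk j i hj).le
      simpa using h4.add_const (Φ x0 (yl i))
    have h3 : Φ xs y = Φ x0 y := by rw [hgs, hg0, hgeq]
    rw [← h3]
    exact hlim y
  -- dominated convergence
  borelize D
  obtain ⟨μ, hμ, hΛ⟩ := exists_dominating_real Λ
  have hint : Tendsto (fun j => ∫ y, |H (k j) y - H x0 y| ∂μ) atTop (𝓝 0) := by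
    have h3 : Tendsto (fun j => ∫ y, |H (k j) y - H x0 y| ∂μ) atTop (𝓝 (∫ _y : D, (0 : ℝ) ∂μ)) := by
      refine tendsto_integral_of_dominated_convergence (fun _ => 2 * M) ?_ (integrable_const _) ?_ ?_
      · intro j
        have : Continuous fun y => |H (k j) y - H x0 y| := by fun_prop
        exact this.aestronglyMeasurable
      · intro j
        refine Eventually.of_forall fun y => ?_
        rw [Real.norm_eq_abs, abs_abs]
        have h5 := (H (k j)).norm_coe_le_norm y
        have h6 := (H x0).norm_coe_le_norm y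
        have h7 := hM (k j)
        have h8 := hM x0
        rw [Real.norm_eq_abs] at h5 h6
        calc |H (k j) y - H x0 y| ≤ |H (k j) y| + |H x0 y| := abs_sub _ _
          _ ≤ 2 * M := by linarith
      · refine Eventually.of_forall fun y => ?_
        have h5 := (hpt y).sub_const (Φ x0 y)
        rw [sub_self] at h5
        simpa using h5.abs
    simpa using h3
  have h3 : ∀ j, ε ≤ ∫ y, |H (k j) y - H x0 y| ∂μ := by
    intro j
    have h4 : ε ≤ |Λ (H (k j)) - Λ (H x0)| := hBA (k j).2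
    rw [← map_sub] at h4
    exact h4.trans (hΛ _)
  have h4 := ge_of_tendsto' hint h3
  linarith

end N824.Wap
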