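import Pool.Agent.N824.WapB

set_option autoImplicit false

open Set Filter Topology MeasureTheory

namespace N824.Wap

section Seminorm

variable {E : Type*} [AddCommGroup E] [Module ℝ E]

/-- Linear functionals dominated by a seminorm. -/
def Pol (q : Seminorm ℝ E) : Set (E → ℝ) :=
  {g | (∀ a b, g (a + b) = g a + g b) ∧ (∀ (c : ℝ) a, g (c • a) = c * g a) ∧ ∀ v, |g v| ≤ q v}

theorem pol_compact (q : Seminorm ℝ E) : IsCompact (Pol q) := by
  have h1 : IsCompact (Set.pi univ fun v : E => Icc (-(q v)) (q v)) :=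
    isCompact_univ_pi fun v => isCompact_Icc
  refine h1.of_isClosed_subset ?_ ?_
  · have : Pol q = (⋂ a, ⋂ b, {g : E → ℝ | g (a + b) = g a + g b}) ∩
        ((⋂ c : ℝ, ⋂ a, {g : E → ℝ | g (c • a) = c * g a}) ∩ ⋂ v, {g : E → ℝ | |g v| ≤ q v}) := by
      ext g; simp [Pol]
    rw [this]
    refine IsClosed.inter ?_ (IsClosed.inter ?_ ?_)
    · exact isClosed_iInter fun a => isClosed_iInter fun b => isClosed_eq (by fun_prop) (by fun_prop)
    · exact isClosed_iInter fun a => isClosed_iInter fun b => isClosed_eq (by fun_prop) (by fun_prop)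
    · exact isClosed_iInter fun v => isClosed_le (by fun_prop) continuous_const
  · intro g hg v _
    exact abs_le.1 (hg.2.2 v)

/-- The linear functional given by an element of the polar. -/
def plin {q : Seminorm ℝ E} (g : Pol q) : E →ₗ[ℝ] ℝ where
  toFun := g.1
  map_add' := g.2.1
  map_smul' := g.2.2.1

theorem ple {q : Seminorm ℝ E} (g : Pol q) (v : E) : |g.1 v| ≤ q v := g.2.2.2 v

/-- Hahn-Banach -/
theorem exists_pol (q : Seminorm ℝ E) (v : E) : ∃ g : Pol q, g.1 v = q v := by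
  classical
  by_cases hv : q v = 0
  · refine ⟨⟨fun _ => 0, by simp, by simp, by simp⟩, hv.symm⟩
  have hv0 : v ≠ 0 := by
    rintro rfl; exact hv (map_zero q)
  let f := (LinearEquiv.toSpanNonzeroSingleton ℝ E v hv0).symm
  let F : Module.Dual ℝ (Submodule.span ℝ {v}) := (q v) • (f : _ →ₗ[ℝ] ℝ)
  have hF : ∀ x : Submodule.span ℝ {v}, F x ≤ q x := by
    intro x
    obtain ⟨c, hc⟩ := (LinearEquiv.toSpanNonzeroSingleton ℝ E v hv0).surjective x
    have h1 : f x = c := by rw [← hc]; exact LinearEquiv.symm_apply_apply _ _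
    have h2 : (x : E) = c • v := by
      rw [← hc]; rfl
    show q v * f x ≤ q x
    rw [h1, h2, map_smul_eq_mul, Real.norm_eq_abs, mul_comm]
    exact mul_le_mul_of_nonneg_right (le_abs_self c) (apply_nonneg q v)
  obtain ⟨g, hg1, hg2⟩ := Module.Dual.exists_extension_of_le_seminorm_real _ F hF
  refine ⟨⟨g, fun a b => map_add g a b, fun c a => map_smul g c a, hg2⟩, ?_⟩
  have h3 := hg1 ⟨v, Submodule.mem_span_singleton_self v⟩
  show g v = q v
  have h4 : f ⟨v, Submodule.mem_span_singleton_self v⟩ = 1 := by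
    rw [LinearEquiv.symm_apply_eq]
    ext
    simp
  have h5 : F ⟨v, Submodule.mem_span_singleton_self v⟩ = q v := by
    show q v * f _ = q v
    rw [h4, mul_one]
  rw [← h5, ← h3]

theorem q_le_iff (q : Seminorm ℝ E) (v : E) (r : ℝ) : q v ≤ r ↔ ∀ g : Pol q, g.1 v ≤ r := by
  constructor
  · intro h g
    exact (le_abs_self _).trans ((ple g v).trans h)
  · intro h
    obtain ⟨g, hg⟩ := exists_pol q v
    rw [← hg]; exact h g

end Seminorm

section Core

variable {S X E ι : Type*} [TopologicalSpace X] [CompactSpace X] [T2Space X]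
  [AddCommGroup E] [Module ℝ E] {Q : ι → Seminorm ℝ E} {e : X → E}

omit [CompactSpace X] [T2Space X] in
/-- `q`-balls are weakly closed -/
theorem closed_ball (hcont : ∀ i (f : E →ₗ[ℝ] ℝ), (∀ v, |f v| ≤ Q i v) →
    Continuous fun x => f (e x)) (i : ι) {Y : Type*} [TopologicalSpace Y] (a b : Y → X)
    (ha : Continuous a) (hb : Continuous b) (r : ℝ) :
    IsClosed {y | Q i (e (a y) - e (b y)) ≤ r} := by
  have : {y | Q i (e (a y) - e (b y)) ≤ r} =
      ⋂ g : Pol (Q i), {y | g.1 (e (a y)) - g.1 (e (b y)) ≤ r} := by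
    ext y
    simp only [mem_ofPred_eq, mem_iInter]
    rw [q_le_iff]
    refine forall_congr' fun g => ?_
    have : g.1 (e (a y) - e (b y)) = g.1 (e (a y)) - g.1 (e (b y)) := map_sub (plin g) _ _
    rw [this]
  rw [this]
  refine isClosed_iInter fun g => isClosed_le ?_ continuous_const
  have h1 := hcont i (plin g) (ple g)
  exact (h1.comp ha).sub (h1.comp hb)

omit [T2Space X] in
theorem zorn_closed (P : Set X → Prop) (A0 : Set X) (h0 : IsClosed A0) (h0n : A0.Nonempty)
    (h0P : P A0) (hP : ∀ c : Set (Set X), c.Nonempty → (∀ A ∈ c, P A) → P (⋂₀ c)) :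
    ∃ A ⊆ A0, IsClosed A ∧ A.Nonempty ∧ P A ∧
      ∀ B ⊆ A, IsClosed B → B.Nonempty → P B → B = A := by
  obtain ⟨A, hA0, hA⟩ := zorn_superset_nonempty {A : Set X | IsClosed A ∧ A.Nonempty ∧ P A}
    (by
      intro c hc hch hcn
      refine ⟨⋂₀ c, ⟨isClosed_sInter fun A hA => (hc hA).1, ?_, hP c hcn fun A hA => (hc hA).2.2⟩,
        fun A hA => sInter_subset_of_mem hA⟩
      have : Nonempty c := hcn.to_subtype
      rw [sInter_eq_iInter]
      refine IsCompact.nonempty_iInter_of_directed_nonempty_isCompact_isClosed _ ?_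
        (fun i => (hc i.2).2.1) (fun i => (hc i.2).1.isCompact) (fun i => (hc i.2).1)
      exact DirectedOn.directed_val (IsChain.directedOn hch.symm))
    A0 ⟨h0, h0n, h0P⟩
  refine ⟨A, hA0, hA.prop.1, hA.prop.2.1, hA.prop.2.2, fun B hB h1 h2 h3 => ?_⟩
  exact hA.eq_of_subset ⟨h1, h2, h3⟩ hB

theorem aux_calc (n δ : ℝ) (hn : 0 < n) :
    1 / n * ((n - 1) * δ + δ / 2) = δ - δ / (2 * n) := by
  field_simp
  ring

set_option maxHeartbeats 4000000 in
theorem core [Nonempty S] [Nonempty X] (hconv : Convex ℝ (range e))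
    (hsep : ∀ x y, (∀ i, Q i (e x - e y) = 0) → x = y)
    (hcont : ∀ i (f : E →ₗ[ℝ] ℝ), (∀ v, |f v| ≤ Q i v) → Continuous fun x => f (e x))
    (T : S → X → X) (hT : ∀ s t, ∃ u, T s ∘ T t = T u) (hTc : ∀ s, Continuous (T s))
    (hqe : ∀ g ∈ closure (range T), Continuous g)
    (hne : ∀ i s x y, Q i (e (T s x) - e (T s y)) ≤ Q i (e x - e y))
    (hM : ∀ x, ∃ M : C(X, ℝ) →L[ℝ] ℝ, (∀ ψ : C(X, ℝ), (∀ s, 0 ≤ ψ (T s x)) → 0 ≤ M ψ) ∧
      M 1 = 1 ∧ ∀ a ψ, M (ψ.comp ⟨T a, hTc a⟩) = M ψ) :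
    ∃ x, ∀ s, T s x = x := by
  classical
  -- the enveloping semigroup
  set Sg : Set (X → X) := closure (range T) with hSg
  have hSgc : IsCompact Sg := isClosed_closure.isCompact
  have hTmem : ∀ s, T s ∈ Sg := fun s => subset_closure ⟨s, rfl⟩
  have hcomp1 : ∀ s, ∀ g ∈ Sg, T s ∘ g ∈ Sg := by
    intro s
    have hcl : IsClosed {g : X → X | T s ∘ g ∈ Sg} :=
      isClosed_closure.preimage (continuous_pi fun x => (hTc s).comp (continuous_apply x))
    have hsub : range T ⊆ {g : X → X | T s ∘ g ∈ Sg} := by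
      rintro _ ⟨t, rfl⟩
      obtain ⟨u, hu⟩ := hT s t
      show T s ∘ T t ∈ Sg
      rw [hu]; exact hTmem u
    exact fun g hg => closure_minimal hsub hcl hg
  have hcomp : ∀ g ∈ Sg, ∀ k ∈ Sg, g ∘ k ∈ Sg := by
    intro g hg k hk
    have hcl : IsClosed {g : X → X | g ∘ k ∈ Sg} :=
      isClosed_closure.preimage (continuous_pi fun x => continuous_apply (k x))
    have hsub : range T ⊆ {g : X → X | g ∘ k ∈ Sg} := by
      rintro _ ⟨t, rfl⟩; exact hcomp1 t k hk
    exact closure_minimal hsub hcl hg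
  have hSne : ∀ g ∈ Sg, ∀ i x y, Q i (e (g x) - e (g y)) ≤ Q i (e x - e y) := by
    intro g hg i x y
    have hcl : IsClosed {g : X → X | Q i (e (g x) - e (g y)) ≤ Q i (e x - e y)} :=
      closed_ball hcont i (fun g : X → X => g x) (fun g => g y) (continuous_apply x)
        (continuous_apply y) _
    exact closure_minimal (by rintro _ ⟨t, rfl⟩; exact hne i t x y) hcl hg
  have hinj : Function.Injective e := fun x y h =>
    hsep x y (fun i => by rw [h, sub_self, map_zero])
  -- minimal sets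
  let Cv : Set X → Prop := fun A => ∀ x ∈ A, ∀ y ∈ A, ∀ a b : ℝ, 0 ≤ a → 0 ≤ b → a + b = 1 →
    ∀ z, e z = a • e x + b • e y → z ∈ A
  let Inv : Set X → Prop := fun A => ∀ s, ∀ x ∈ A, T s x ∈ A
  obtain ⟨C0, -, hC0c, hC0n, ⟨hC0v, hC0i⟩, hC0m⟩ := zorn_closed (fun A => Cv A ∧ Inv A) univ
    isClosed_univ univ_nonempty
    ⟨fun _ _ _ _ _ _ _ _ _ _ _ => mem_univ _, fun _ _ _ => mem_univ _⟩
    (by
      intro c hcn hc
      constructor
      · intro x hx y hy a b ha hb hab z hz A hA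
        exact (hc A hA).1 x (hx A hA) y (hy A hA) a b ha hb hab z hz
      · intro s x hx A hA
        exact (hc A hA).2 s x (hx A hA))
  obtain ⟨F, hFC, hFc, hFn, hFi, hFm⟩ := zorn_closed Inv C0 hC0c hC0n hC0i
    (fun c hcn hc s x hx A hA => hc A hA s x (hx A hA))
  obtain ⟨x0, hx0⟩ := hFn
  have hSF : ∀ g ∈ Sg, ∀ x ∈ F, g x ∈ F := by
    intro g hg x hx
    have hcl : IsClosed {g : X → X | g x ∈ F} := hFc.preimage (continuous_apply x)
    exact closure_minimal (by rintro _ ⟨t, rfl⟩; exact hFi t x hx) hcl hg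
  -- transitivity
  have htr : ∀ x ∈ F, ∀ y ∈ F, ∃ g ∈ Sg, g x = y := by
    intro x hx y hy
    have himg : (fun g : X → X => g x) '' Sg = F := by
      apply hFm
      · rintro _ ⟨g, hg, rfl⟩; exact hSF g hg x hx
      · exact (hSgc.image (continuous_apply x)).isClosed
      · obtain ⟨s⟩ := (inferInstance : Nonempty S)
        exact ⟨_, T s, hTmem s, rfl⟩
      · rintro s _ ⟨g, hg, rfl⟩
        exact ⟨T s ∘ g, hcomp1 s g hg, rfl⟩
    rw [← himg] at hy; exact hy
  obtain ⟨M, hMpos, hM1, hMinv⟩ := hM x0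
  have hMF : ∀ ψ : C(X, ℝ), (∀ x ∈ F, ψ x = 0) → M ψ = 0 := by
    intro ψ hψ
    apply le_antisymm
    · have h1 := hMpos (-ψ) (fun s => by
        rw [ContinuousMap.neg_apply, hψ _ (hFi s x0 hx0), neg_zero])
      rw [map_neg] at h1
      linarith
    · exact hMpos ψ (fun s => (hψ _ (hFi s x0 hx0)).ge)
  -- the support of `M`
  let sp : Set X := {y | ∀ ψ : C(X, ℝ), (∀ x, 0 ≤ ψ x) → 0 < ψ y → 0 < M ψ}
  have hsp : sp = F := by
    apply hFm
    · intro y hy
      by_contra hyF
      obtain ⟨f, hf0, hf1, hf01⟩ := exists_continuous_zero_one_of_isClosed hFc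
        (isClosed_singleton (x := y)) (disjoint_singleton_right.2 hyF)
      have h1 : 0 < M f := hy f (fun x => (hf01 x).1) (by
        rw [hf1 (mem_singleton y)]; exact one_pos)
      rw [hMF f (fun x hx => hf0 hx)] at h1
      exact lt_irrefl _ h1
    · rw [← isOpen_compl_iff, isOpen_iff_mem_nhds]
      intro y hy
      have hy' : ¬ ∀ ψ : C(X, ℝ), (∀ x, 0 ≤ ψ x) → 0 < ψ y → 0 < M ψ := hy
      push Not at hy'
      obtain ⟨ψ, h1, h2, h3⟩ := hy'
      have ho : IsOpen {z | 0 < ψ z} := isOpen_lt continuous_const ψ.continuous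
      filter_upwards [ho.mem_nhds h2] with z hz
      intro hzs
      exact absurd (hzs ψ h1 hz) (not_lt.2 h3)
    · by_contra hem
      rw [not_nonempty_iff_eq_empty] at hem
      have h1 : ∀ y : X, ∃ ψ : C(X, ℝ), (∀ x, 0 ≤ ψ x) ∧ 0 < ψ y ∧ M ψ ≤ 0 := by
        intro y
        have hy : y ∉ sp := by rw [hem]; exact notMem_empty y
        have hy' : ¬ ∀ ψ : C(X, ℝ), (∀ x, 0 ≤ ψ x) → 0 < ψ y → 0 < M ψ := hy
        push Not at hy'
        exact hy'
      choose ψ hψ0 hψp hψM using h1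
      obtain ⟨t, ht⟩ := isCompact_univ.elim_finite_subcover (fun y : X => {z | 0 < ψ y z})
        (fun y => isOpen_lt continuous_const (ψ y).continuous)
        (fun y _ => mem_iUnion.2 ⟨y, hψp y⟩)
      let Ψ : C(X, ℝ) := ∑ y ∈ t, ψ y
      have hΨ : ∀ z, 0 < Ψ z := by
        intro z
        obtain ⟨y, hy⟩ := mem_iUnion.1 (ht (mem_univ z))
        obtain ⟨hyt, hz⟩ := mem_iUnion.1 hy
        have h2 : Ψ z = ∑ y ∈ t, ψ y z := by
          simp [Ψ]
        rw [h2]
        exact Finset.sum_pos' (fun y _ => hψ0 y z) ⟨y, hyt, hz⟩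
      obtain ⟨zm, -, hzm⟩ := isCompact_univ.exists_isMinOn (univ_nonempty (α := X))
        Ψ.continuous.continuousOn
      have h3 : 0 ≤ M (Ψ - (Ψ zm) • (1 : C(X, ℝ))) := by
        apply hMpos
        intro s
        have h4 : Ψ zm ≤ Ψ (T s x0) := hzm (mem_univ _)
        simp only [ContinuousMap.sub_apply, ContinuousMap.smul_apply, ContinuousMap.one_apply,
          smul_eq_mul, mul_one]
        linarith
      rw [map_sub, map_smul, hM1, smul_eq_mul, mul_one] at h3
      have h5 : M Ψ ≤ 0 := by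
        rw [show M Ψ = ∑ y ∈ t, M (ψ y) from map_sum M _ _]
        exact Finset.sum_nonpos fun y _ => hψM y
      have h6 := hΨ zm
      linarith
    · intro s y hy ψ h1 h2
      rw [← hMinv s ψ]
      exact hy _ (fun x => h1 _) h2
  -- `M` is invariant under the whole enveloping semigroup
  have hMS : ∀ (g : X → X) (hg : g ∈ Sg) (ψ : C(X, ℝ)), M (ψ.comp ⟨g, hqe g hg⟩) = M ψ := by
    intro g hg ψ
    have : CompactSpace Sg := isCompact_iff_compactSpace.1 hSgc
    let H : Sg → C(X, ℝ) := fun g => ψ.comp ⟨g.1, hqe g.1 g.2⟩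
    have hc1 : Continuous fun g => M (H g) := by
      refine grothendieck H (fun y => ?_) ‖ψ‖ (fun g => ?_) M
      · exact ψ.continuous.comp ((continuous_apply y).comp continuous_subtype_val)
      · rw [ContinuousMap.norm_le _ (norm_nonneg _)]
        exact fun y => ψ.norm_coe_le_norm _
    have hcl : IsClosed {g : Sg | M (H g) = M ψ} := isClosed_eq hc1 continuous_const
    have hcl2 : IsClosed (Subtype.val '' {g : Sg | M (H g) = M ψ}) :=
      isClosed_closure.isClosedEmbedding_subtypeVal.isClosedMap _ hcl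
    have hsub : range T ⊆ Subtype.val '' {g : Sg | M (H g) = M ψ} := by
      rintro _ ⟨a, rfl⟩
      exact ⟨⟨T a, hTmem a⟩, hMinv a ψ, rfl⟩
    obtain ⟨g', hg', hgg⟩ := closure_minimal hsub hcl2 hg
    have : g' = ⟨g, hg⟩ := Subtype.ext hgg
    subst this
    exact hg'
  -- surjectivity
  have hsurj : ∀ g ∈ Sg, ∀ y ∈ F, ∃ x ∈ F, g x = y := by
    intro g hg y hy
    by_contra hno
    have hy' : y ∉ g '' F := by
      rintro ⟨x, hx, hxy⟩; exact hno ⟨x, hx, hxy⟩
    have hgF : IsClosed (g '' F) := (hFc.isCompact.image (hqe g hg)).isClosed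
    obtain ⟨f, hf0, hf1, hf01⟩ := exists_continuous_zero_one_of_isClosed hgF
      (isClosed_singleton (x := y)) (disjoint_singleton_right.2 hy')
    have h1 : 0 < M f := by
      rw [← hsp] at hy
      exact hy f (fun x => (hf01 x).1) (by rw [hf1 (mem_singleton y)]; exact one_pos)
    have h2 : M (f.comp ⟨g, hqe g hg⟩) = 0 := by
      apply hMF
      intro x hx
      exact hf0 (mem_image_of_mem g hx)
    rw [← hMS g hg f, h2] at h1
    exact lt_irrefl _ h1
  -- left inverses
  have hleft : ∀ g ∈ Sg, ∃ k ∈ Sg, ∀ x ∈ F, k (g x) = x := by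
    intro g hg
    let : Semigroup (X → X) := { mul := fun f g => f ∘ g, mul_assoc := fun _ _ _ => rfl }
    obtain ⟨m, ⟨k, hk, rfl⟩, hm⟩ := exists_idempotent_in_compact_subsemigroup (M := X → X)
      (fun r => continuous_pi fun x => continuous_apply (r x))
      ((fun k : X → X => k ∘ g) '' Sg) ⟨_, g, hg, rfl⟩
      (hSgc.image (continuous_pi fun x => continuous_apply (g x)))
      (by
        rintro _ ⟨k, hk, rfl⟩ _ ⟨k', hk', rfl⟩
        exact ⟨k ∘ (g ∘ k'), hcomp k hk _ (hcomp g hg k' hk'), rfl⟩)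
    refine ⟨k, hk, fun x hx => ?_⟩
    obtain ⟨x', hx', hxx⟩ := hsurj (k ∘ g) (hcomp k hk g hg) x hx
    have h1 : (k ∘ g) ((k ∘ g) x') = (k ∘ g) x' := congrFun hm x'
    rw [hxx] at h1
    exact h1
  -- total boundedness
  have : CompactSpace F := isCompact_iff_compactSpace.1 hFc.isCompact
  have : Nonempty F := ⟨⟨x0, hx0⟩⟩
  have htb : ∀ i, ∀ ε : ℝ, 0 < ε → ∃ t : Finset X, (∀ z ∈ t, z ∈ F) ∧
      ∀ y ∈ F, ∃ z ∈ t, Q i (e z - e y) ≤ ε := by
    intro i ε hε
    have : CompactSpace (Pol (Q i)) := isCompact_iff_compactSpace.1 (pol_compact (Q i))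
    obtain ⟨U, hUo, ⟨u, hu⟩, hU⟩ := namioka (K := F) (D := Pol (Q i))
      (fun x g => g.1 (e x)) (fun x => (continuous_apply (e x)).comp continuous_subtype_val)
      (fun g => (hcont i (plin g) (ple g)).comp continuous_subtype_val) hε
    have hU' : ∀ x ∈ U, ∀ x' ∈ U, Q i (e x - e x') ≤ ε := by
      intro x hx x' hx'
      rw [q_le_iff]
      intro g
      have h1 := hU x hx x' hx' g
      have h2 : g.1 (e x - e x') = g.1 (e x) - g.1 (e x') := map_sub (plin g) _ _
      rw [h2]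
      exact (le_abs_self _).trans h1
    choose! G hG1 hG2 using fun y : F => htr y y.2 u u.2
    let O : F → Set F := fun y => {z | (⟨G y z, hSF _ (hG1 y) z z.2⟩ : F) ∈ U}
    have hOo : ∀ y, IsOpen (O y) := by
      intro y
      refine hUo.preimage ?_
      exact Continuous.subtype_mk ((hqe _ (hG1 y)).comp continuous_subtype_val) _
    have hyO : ∀ y, y ∈ O y := by
      intro y
      show (⟨G y y, _⟩ : F) ∈ U
      have : (⟨G y y, hSF _ (hG1 y) y y.2⟩ : F) = u := Subtype.ext (hG2 y)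
      rw [this]; exact hu
    obtain ⟨t, ht⟩ := isCompact_univ.elim_finite_subcover O hOo
      (fun y _ => mem_iUnion.2 ⟨y, hyO y⟩)
    refine ⟨t.image Subtype.val, ?_, ?_⟩
    · intro z hz
      obtain ⟨y, -, rfl⟩ := Finset.mem_image.1 hz
      exact y.2
    · intro y hy
      obtain ⟨z, hz⟩ := mem_iUnion.1 (ht (mem_univ ⟨y, hy⟩))
      obtain ⟨hzt, hyz⟩ := mem_iUnion.1 hz
      refine ⟨z, Finset.mem_image_of_mem _ hzt, ?_⟩
      obtain ⟨k, hk, hkk⟩ := hleft _ (hG1 z)
      have h1 := hU' _ (hyO z) _ hyz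
      have h2 := hSne k hk i (G z z) (G z y)
      rw [hkk z z.2, hkk y hy] at h2
      exact h2.trans h1
  -- DeMarr
  have hzero : ∀ i, ∀ x ∈ F, ∀ y ∈ F, Q i (e x - e y) = 0 := by
    intro i
    by_contra hcon
    push Not at hcon
    obtain ⟨x1, hx1, y1, hy1, hxy1⟩ := hcon
    let D : Set ℝ := {r | ∃ x ∈ F, ∃ y ∈ F, r = Q i (e x - e y)}
    have hDbdd : BddAbove D := by
      obtain ⟨t, htF, ht⟩ := htb i 1 one_pos
      refine ⟨∑ z ∈ t, ∑ z' ∈ t, Q i (e z - e z') + 2, ?_⟩
      rintro r ⟨x, hx, y, hy, rfl⟩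
      obtain ⟨z, hz, hzx⟩ := ht x hx
      obtain ⟨z', hz', hzy⟩ := ht y hy
      have h1 : e x - e y = (-(e z - e x)) + ((e z - e z') + (e z' - e y)) := by abel
      have h2 : Q i (e x - e y) ≤ Q i (e z - e x) + (Q i (e z - e z') + Q i (e z' - e y)) := by
        rw [h1]
        refine (map_add_le_add _ _ _).trans ?_
        rw [map_neg_eq_map]
        exact add_le_add le_rfl (map_add_le_add _ _ _)
      have h3 : Q i (e z - e z') ≤ ∑ z ∈ t, ∑ z' ∈ t, Q i (e z - e z') := by
        refine le_trans ?_ (Finset.single_le_sum (f := fun z => ∑ z' ∈ t, Q i (e z - e z'))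
          (fun z _ => Finset.sum_nonneg fun z' _ => apply_nonneg _ _) hz)
        exact Finset.single_le_sum (f := fun z' => Q i (e z - e z'))
          (fun z' _ => apply_nonneg _ _) hz'
      linarith
    set δ : ℝ := sSup D with hδ
    have hδle : ∀ x ∈ F, ∀ y ∈ F, Q i (e x - e y) ≤ δ := fun x hx y hy =>
      le_csSup hDbdd ⟨x, hx, y, hy, rfl⟩
    have hδpos : 0 < δ := lt_of_lt_of_le (lt_of_le_of_ne (apply_nonneg _ _) (Ne.symm hxy1))
      (hδle x1 hx1 y1 hy1)
    obtain ⟨t, htF, ht⟩ := htb i (δ / 2) (by positivity)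
    have htn : t.Nonempty := by
      obtain ⟨z, hz, -⟩ := ht x0 hx0
      exact ⟨z, hz⟩
    have hcard : (0 : ℝ) < t.card := by exact_mod_cast htn.card_pos
    have hcinv : (0 : ℝ) ≤ 1 / t.card := by positivity
    have hconvC0 : Convex ℝ (e '' C0) := by
      rintro _ ⟨x, hx, rfl⟩ _ ⟨y, hy, rfl⟩ a b ha hb hab
      obtain ⟨z, hz⟩ := hconv ⟨x, rfl⟩ ⟨y, rfl⟩ ha hb hab
      exact ⟨z, hC0v x hx y hy a b ha hb hab z hz, hz⟩
    have hu : ∑ z ∈ t, (1 / (t.card : ℝ)) • e z ∈ e '' C0 := by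
      refine hconvC0.sum_mem (fun _ _ => by positivity) ?_ (fun z hz => ⟨z, hFC (htF z hz), rfl⟩)
      rw [Finset.sum_const, nsmul_eq_mul]
      field_simp
    obtain ⟨u, huC, hue⟩ := hu
    set r : ℝ := δ - δ / (2 * t.card) with hr
    have hur : ∀ y ∈ F, Q i (e u - e y) ≤ r := by
      intro y hy
      obtain ⟨z0, hz0, hz0y⟩ := ht y hy
      have h1 : e u - e y = ∑ z ∈ t, (1 / (t.card : ℝ)) • (e z - e y) := by
        simp_rw [smul_sub]
        rw [Finset.sum_sub_distrib, ← hue, Finset.sum_const]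
        congr 1
        rw [← Nat.cast_smul_eq_nsmul ℝ, smul_smul]
        rw [mul_one_div_cancel hcard.ne', one_smul]
      have h2 : Q i (e u - e y) ≤ ∑ z ∈ t, (1 / (t.card : ℝ)) * Q i (e z - e y) := by
        rw [h1]
        refine (Finset.le_sum_of_subadditive (Q i) (map_zero (Q i)).le (map_add_le_add _) _ _).trans
          (le_of_eq ?_)
        refine Finset.sum_congr rfl fun z _ => ?_
        rw [map_smul_eq_mul, Real.norm_eq_abs, abs_of_nonneg hcinv]
      have h3 : ∑ z ∈ t, (1 / (t.card : ℝ)) * Q i (e z - e y) ≤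
          (1 / (t.card : ℝ)) * (∑ z ∈ t.erase z0, δ + δ / 2) := by
        rw [← Finset.mul_sum]
        refine mul_le_mul_of_nonneg_left ?_ (by positivity)
        rw [← Finset.sum_erase_add _ _ hz0]
        refine add_le_add (Finset.sum_le_sum fun z hz => ?_) hz0y
        exact hδle z (htF z (Finset.mem_of_mem_erase hz)) y hy
      refine h2.trans (h3.trans (le_of_eq ?_))
      rw [Finset.sum_const, Finset.card_erase_of_mem hz0, nsmul_eq_mul,
        Nat.cast_sub (Nat.one_le_iff_ne_zero.2 htn.card_pos.ne'), hr, Nat.cast_one]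
      exact aux_calc _ _ hcard
    have hC1 : {x | x ∈ C0 ∧ ∀ y ∈ F, Q i (e x - e y) ≤ r} = C0 := by
      apply hC0m
      · exact fun x hx => hx.1
      · have : {x | x ∈ C0 ∧ ∀ y ∈ F, Q i (e x - e y) ≤ r} =
            C0 ∩ ⋂ y ∈ F, {x | Q i (e x - e y) ≤ r} := by
          ext x; simp
        rw [this]
        refine hC0c.inter (isClosed_iInter fun y => isClosed_iInter fun _ => ?_)
        exact closed_ball hcont i (fun x : X => x) (fun _ => y) continuous_id continuous_const r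
      · exact ⟨u, huC, hur⟩
      · constructor
        · rintro x ⟨hx, hxr⟩ y ⟨hy, hyr⟩ a b ha hb hab z hz
          refine ⟨hC0v x hx y hy a b ha hb hab z hz, fun w hw => ?_⟩
          have h1 : e z - e w = a • (e x - e w) + b • (e y - e w) := by
            rw [hz, smul_sub, smul_sub]
            have : e w = a • e w + b • e w := by rw [← add_smul, hab, one_smul]
            nth_rewrite 1 [this]
            abel
          rw [h1]
          refine (map_add_le_add _ _ _).trans ?_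
          rw [map_smul_eq_mul, map_smul_eq_mul, Real.norm_eq_abs, Real.norm_eq_abs,
            abs_of_nonneg ha, abs_of_nonneg hb]
          calc a * Q i (e x - e w) + b * Q i (e y - e w) ≤ a * r + b * r :=
                add_le_add (mul_le_mul_of_nonneg_left (hxr w hw) ha)
                  (mul_le_mul_of_nonneg_left (hyr w hw) hb)
            _ = r := by rw [← add_mul, hab, one_mul]
        · rintro s x ⟨hx, hxr⟩
          refine ⟨hC0i s x hx, fun y hy => ?_⟩
          obtain ⟨y', hy', rfl⟩ := hsurj (T s) (hTmem s) y hy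
          exact (hne i s x y').trans (hxr y' hy')
    have hδr : δ ≤ r := by
      refine csSup_le ⟨_, x0, hx0, x0, hx0, rfl⟩ ?_
      rintro _ ⟨x, hx, y, hy, rfl⟩
      have h1 : x ∈ {x | x ∈ C0 ∧ ∀ y ∈ F, Q i (e x - e y) ≤ r} := by
        rw [hC1]; exact hFC hx
      exact h1.2 y hy
    have : 0 < δ / (2 * t.card) := by positivity
    rw [hr] at hδr
    linarith
  refine ⟨x0, fun s => ?_⟩
  exact hsep _ _ fun i => hzero i _ (hFi s x0 hx0) _ hx0

end Core

end N824.Wap
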